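import Pool.Agent.Q205.TD.Stm

/-! TDCNT and TDKB. -/

set_option autoImplicit false

namespace Pool.Agent.Q205.TD

open Pool.Agent.Helper227 Q217.KT Q217.PR
open Pool.Agent.Helper444.CKGame (num card_short)

theorem exists_desc {U : List Bool →. List Bool} (hU : OptimalPrefixFree U) (n : ℕ) :
    ∃ p, natStr n ∈ U p := by
  have hid : PrefixFree (fun w : List Bool => (if w = [] then some (natStr n) else none :
      Option (List Bool))) := by
    refine ⟨Computable.ofOption (Primrec.ite (Primrec.eq.comp Primrec.id (Primrec.const []))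
      (Primrec.const (some (natStr n))) (Primrec.const none)).to_comp, ?_⟩
    intro p q hp hq _
    by_cases h1 : p = []
    · by_cases h2 : q = []
      · rw [h1, h2]
      · simp [h2] at hq
    · simp [h1] at hp
  obtain ⟨c', hc'⟩ := hU.2 _ hid
  obtain ⟨q, -, hq⟩ := hc' [] (natStr n) (by simp)
  exact ⟨q, hq⟩

theorem natStr_inj {m n : ℕ} (h : natStr m = natStr n) : m = n := by
  have h1 := num_natStr m
  rw [h, num_natStr] at h1
  omega

theorem cnt : CNTStm := by
  intro U hU k T hT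
  classical
  have hex : ∀ v : ℤ × ℤ × ℕ, ∃ p : List Bool, p.length = Kc U v ∧
      natStr (Encodable.encode v) ∈ U p := fun v => cx_spec (exists_desc hU _)
  choose p hp1 hp2 using hex
  have h1 : (T.image p).card = T.card := by
    apply Finset.card_image_of_injective
    intro v w h
    have h2 := hp2 v
    rw [h] at h2
    exact Encodable.encode_injective (natStr_inj (Part.mem_unique h2 (hp2 w)))
  rw [← h1]
  refine (card_short _ k ?_).le
  intro q hq
  rw [Finset.mem_image] at hq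
  obtain ⟨v, hv, rfl⟩ := hq
  rw [hp1]
  exact hT v hv

theorem kb : KBStm := by
  intro U hU Wp hW g l hg hl b hb hcard
  classical
  obtain ⟨q, hq, hqm, hqe⟩ := hW
  obtain ⟨c₀, hc₀⟩ : ∃ c : ℕ, 2 * b ≤ 2 ^ c := ⟨2 * b, Nat.lt_two_pow_self.le⟩
  obtain ⟨P, hPd⟩ : ∃ P : ℕ × ℤ × ℕ → Prop, P = fun y => q (y.1, y.2.1) y.2.2 ∧
      ∀ n' < y.2.2, ¬ q (y.1, y.2.1) n' := ⟨_, rfl⟩
  have f1 : Primrec fun y : ℕ × ℤ × ℕ => (y.1, y.2.1) :=
    Primrec.fst.pair (Primrec.fst.comp Primrec.snd)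
  have f2 : Primrec fun y : ℕ × ℤ × ℕ => y.2.2 := Primrec.snd.comp Primrec.snd
  have hP : PrimrecPred P := by
    rw [hPd]
    refine PrimrecPred.and (hq.comp f1 f2) ?_
    refine PP.all_lt (α := ℕ × ℤ × ℕ) (p := fun y n' => ¬ q (y.1, y.2.1) n') ?_ f2
    exact PrimrecPred.not (hq.comp (f1.comp Primrec.fst) Primrec.snd)
  have hr : Primrec fun y : ℕ × ℤ × ℕ => g y.1 + y.1 / b + c₀ :=
    Primrec.nat_add.comp (Primrec.nat_add.comp (hg.comp Primrec.fst)
      (Primrec.nat_div.comp Primrec.fst (Primrec.const b))) (Primrec.const c₀)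
  have hd : Primrec fun y : ℕ × ℤ × ℕ =>
      natStr (Encodable.encode ((0 : ℤ), y.2.1, 2 ^ l y.1 - 1)) := by
    refine primrec_natStr.comp (Primrec.encode.comp ?_)
    exact (Primrec.const (0 : ℤ)).pair ((Primrec.fst.comp Primrec.snd).pair
      (Primrec.nat_sub.comp (primrec_two_pow.comp (hl.comp Primrec.fst)) (Primrec.const 1)))
  have hk : ∀ A : Finset (ℕ × ℤ × ℕ), (∀ y ∈ A, P y) →
      ∑ y ∈ A, (1 / 2 : ℝ) ^ (g y.1 + y.1 / b + c₀) ≤ 1 := by
    intro A hA
    obtain ⟨B, hB⟩ : ∃ B, ∀ y ∈ A, y.1 < B := by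
      refine ⟨∑ y ∈ A, y.1 + 1, fun n hn => ?_⟩
      have h0 : n.1 ≤ ∑ y ∈ A, y.1 :=
        Finset.single_le_sum (f := fun y : ℕ × ℤ × ℕ => y.1) (fun _ _ => Nat.zero_le _) hn
      omega
    have h3 : ∀ u ∈ A, u.1 ∈ Finset.range B := fun u hu => Finset.mem_range.2 (hB u hu)
    rw [← Finset.sum_fiberwise_of_maps_to h3]
    have h4 : ∀ r ∈ Finset.range B, ∑ u ∈ A.filter (fun u => u.1 = r),
        (1 / 2 : ℝ) ^ (g u.1 + u.1 / b + c₀) ≤ (1 / 2) ^ c₀ * (1 / 2) ^ (r / b) := by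
      intro r _
      obtain ⟨S, hS⟩ : ∃ S, S = A.filter fun u => u.1 = r := ⟨_, rfl⟩
      rw [← hS]
      have hSm : ∀ u ∈ S, P u ∧ u.1 = r := by
        intro u hu
        rw [hS, Finset.mem_filter] at hu
        exact ⟨hA u hu.1, hu.2⟩
      have h5 : ∀ u ∈ S, (1 / 2 : ℝ) ^ (g u.1 + u.1 / b + c₀) =
          (1 / 2 : ℝ) ^ (g r + r / b + c₀) := by
        intro u hu
        rw [(hSm u hu).2]
      rw [Finset.sum_congr rfl h5, Finset.sum_const, nsmul_eq_mul]
      have h6 : S.card = (S.image fun u => u.2.1).card := by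
        rw [Finset.card_image_of_injOn]
        intro u hu u' hu' h
        obtain ⟨hR, e1⟩ := hSm u hu
        obtain ⟨hR', e1'⟩ := hSm u' hu'
        have h' : u.2.1 = u'.2.1 := h
        rw [hPd] at hR hR'
        have h1 : q (u.1, u.2.1) u.2.2 := hR.1
        have h2 : q (u.1, u.2.1) u'.2.2 := by
          rw [e1, h', ← e1']
          exact hR'.1
        have h3 : ¬ u'.2.2 < u.2.2 := fun hlt => hR.2 _ hlt h2
        have h4 : ¬ u.2.2 < u'.2.2 := fun hlt => hR'.2 _ hlt (by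
          rw [e1', ← h', ← e1]
          exact h1)
        exact Prod.ext (e1.trans e1'.symm) (Prod.ext h' (by omega))
      have h7 := hcard r (S.image fun u => u.2.1) (by
        intro w hw
        rw [Finset.mem_image] at hw
        obtain ⟨u, hu, rfl⟩ := hw
        obtain ⟨hR, e1⟩ := hSm u hu
        rw [hPd] at hR
        rw [← e1]
        exact (hqe _).2 ⟨_, hR.1⟩)
      rw [← h6] at h7
      have h9 : (S.card : ℝ) * (1 / 2) ^ (g r) ≤ 1 := by
        rw [one_div_pow, mul_one_div, div_le_one (by positivity)]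
        exact_mod_cast h7
      calc (S.card : ℝ) * (1 / 2) ^ (g r + r / b + c₀) =
          (S.card * (1 / 2) ^ (g r)) * ((1 / 2) ^ c₀ * (1 / 2) ^ (r / b)) := by
            rw [pow_add, pow_add]; ring
        _ ≤ 1 * ((1 / 2) ^ c₀ * (1 / 2) ^ (r / b)) := by gcongr
        _ = _ := one_mul _
    refine (Finset.sum_le_sum h4).trans ?_
    rw [← Finset.mul_sum]
    have h6 := sum_half_div hb B
    calc (1 / 2 : ℝ) ^ c₀ * ∑ i ∈ Finset.range B, (1 / 2 : ℝ) ^ (i / b)
        ≤ (1 / 2 : ℝ) ^ c₀ * (2 * b) := by gcongr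
      _ = ((2 * b : ℕ) : ℝ) / 2 ^ c₀ := by
          rw [one_div_pow]; push_cast; ring
      _ ≤ 1 := by
          rw [div_le_one (by positivity)]
          exact_mod_cast hc₀
  have hP' : @PrimrecPred (ℕ × ℤ × ℕ) (Primcodable.ofDenumerable _) P := hP
  have hr' : @Primrec (ℕ × ℤ × ℕ) ℕ (Primcodable.ofDenumerable _) _
    (fun y => g y.1 + y.1 / b + c₀) := hr
  have hd' : @Primrec (ℕ × ℤ × ℕ) (List Bool) (Primcodable.ofDenumerable _) _
    (fun y => natStr (Encodable.encode ((0 : ℤ), y.2.1, 2 ^ l y.1 - 1))) := hd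
  obtain ⟨c, hc⟩ := machine hU hP' hr' hd' hk
  refine ⟨c₀ + c, fun r w hw => ?_⟩
  have hex := (hqe _).1 hw
  have h1 := hc (r, w, Nat.find hex) (by
    rw [hPd]
    exact ⟨Nat.find_spec hex, fun n' hn' => Nat.find_min hex hn'⟩)
  unfold Kc
  refine h1.trans (le_of_eq ?_)
  simp only
  ring

end Pool.Agent.Q205.TD
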