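import Pool.Agent.Q205.TD.Exi
import Pool.Agent.Q205.TD.KB

/-! TDCOUNT. -/

set_option autoImplicit false

namespace Pool.Agent.Q205.TD

open Pool.Agent.Helper227 Q217.KT Q217.PR

theorem spread (D : ℕ) (hD : 1 ≤ D) (k : ℕ) (J : Finset ℕ) (h : k * D < J.card) :
    ∃ N ⊆ J, N.card = k + 1 ∧ ∀ x ∈ N, ∀ y ∈ N, x < y → x + D ≤ y := by
  induction k generalizing J with
  | zero =>
    obtain ⟨a, ha⟩ : J.Nonempty := Finset.card_pos.1 (by omega)
    refine ⟨{a}, by simpa using ha, by simp, ?_⟩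
    intro x hx y hy hxy
    rw [Finset.mem_singleton] at hx hy
    omega
  | succ k ih =>
    have hne : J.Nonempty := Finset.card_pos.1 (by omega)
    obtain ⟨a, ha⟩ : ∃ a, a = J.min' hne := ⟨_, rfl⟩
    have haJ : a ∈ J := by rw [ha]; exact Finset.min'_mem J hne
    have hmin : ∀ x ∈ J, a ≤ x := fun x hx => by rw [ha]; exact Finset.min'_le J x hx
    obtain ⟨J', hJ'⟩ : ∃ J', J' = J \ Finset.Ico a (a + D) := ⟨_, rfl⟩
    have h1 : J.card ≤ J'.card + D := by
      have h2 := Finset.le_card_sdiff (Finset.Ico a (a + D)) J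
      rw [← hJ', Nat.card_Ico] at h2
      omega
    have h2 : k * D < J'.card := by
      rw [Nat.succ_mul] at h
      omega
    obtain ⟨N, hN1, hN2, hN3⟩ := ih J' h2
    have hN4 : ∀ x ∈ N, a + D ≤ x ∧ x ∈ J := by
      intro x hx
      have h3 := hN1 hx
      rw [hJ', Finset.mem_sdiff, Finset.mem_Ico] at h3
      have := hmin x h3.1
      exact ⟨by omega, h3.1⟩
    have haN : a ∉ N := fun haN => by
      have := (hN4 a haN).1
      omega
    refine ⟨insert a N, ?_, ?_, ?_⟩
    · intro x hx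
      rw [Finset.mem_insert] at hx
      rcases hx with rfl | hx
      · exact haJ
      · exact (hN4 x hx).2
    · rw [Finset.card_insert_of_notMem haN, hN2]
    · intro x hx y hy hxy
      rw [Finset.mem_insert] at hx hy
      rcases hx with rfl | hx
      · rcases hy with rfl | hy
        · omega
        · exact (hN4 y hy).1
      · rcases hy with rfl | hy
        · have := (hN4 x hx).1
          omega
        · exact hN3 x hx y hy hxy

/-- the polynomial with a list of coefficients -/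
noncomputable def pp : List ℤ → Polynomial ℝ
  | [] => 0
  | c :: l => Polynomial.C (c : ℝ) + Polynomial.X * pp l

theorem pp_eval (u : ℝ) (l : List ℤ) : (pp l).eval u = pv u l := by
  induction l with
  | nil => simp [pp, pv]
  | cons c l ih =>
    simp only [pp, pv, Polynomial.eval_add, Polynomial.eval_C, Polynomial.eval_mul,
      Polynomial.eval_X, ih]

theorem pp_coeff (l : List ℤ) : ∀ k, l.length ≤ k → (pp l).coeff k = 0 := by
  induction l with
  | nil => intro k _; simp [pp]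
  | cons c l ih =>
    intro k hk
    rcases k with _ | k
    · simp at hk
    · rw [List.length_cons] at hk
      simp only [pp, Polynomial.coeff_add, Polynomial.coeff_C_succ, Polynomial.coeff_X_mul]
      rw [ih k (by omega), add_zero]

theorem pp_zero (l : List ℤ) : (pp l).eval 0 = (l.headI : ℝ) := by
  cases l with
  | nil => simp [pp]
  | cons c l => simp [pp]

/-- a polynomial which is small at well spaced points of the unit interval is not large at 0 -/
theorem lagrange_bound (q : Polynomial ℝ) (N : Finset ℕ) (hq : q.degree < N.card) (M δ B : ℝ)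
    (hM : 0 < M) (hδ : 1 ≤ δ) (hB : 0 ≤ B) (h1 : ∀ x ∈ N, (x : ℝ) ≤ M)
    (h2 : ∀ x ∈ N, ∀ y ∈ N, x ≠ y → M ≤ δ * |(x : ℝ) - y|)
    (h3 : ∀ x ∈ N, |q.eval ((x : ℝ) / M)| ≤ B) :
    |q.eval 0| ≤ N.card * (B * δ ^ N.card) := by
  have hinj : Set.InjOn (fun x : ℕ => (x : ℝ) / M) (N : Set ℕ) := by
    intro x _ y _ h
    have h' : (x : ℝ) / M = y / M := h
    rw [div_left_inj' hM.ne'] at h'
    exact_mod_cast h'
  have h4 := Lagrange.eq_interpolate hinj hq
  rw [Lagrange.interpolate_apply] at h4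
  rw [h4, Polynomial.eval_finsetSum]
  refine (Finset.abs_sum_le_sum_abs _ _).trans ?_
  rw [← nsmul_eq_mul, ← Finset.sum_const]
  refine Finset.sum_le_sum fun x hx => ?_
  rw [Polynomial.eval_mul, Polynomial.eval_C, abs_mul]
  refine mul_le_mul (h3 x hx) ?_ (abs_nonneg _) hB
  unfold Lagrange.basis
  rw [Polynomial.eval_prod, Finset.abs_prod]
  have h5 : ∀ y ∈ N.erase x, |(Lagrange.basisDivisor ((x : ℝ) / M) ((y : ℝ) / M)).eval 0| ≤ δ := by
    intro y hy
    rw [Finset.mem_erase] at hy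
    unfold Lagrange.basisDivisor
    rw [Polynomial.eval_mul, Polynomial.eval_C, Polynomial.eval_sub, Polynomial.eval_X,
      Polynomial.eval_C, zero_sub, abs_mul, abs_neg, ← sub_div, abs_inv, abs_div, abs_div,
      abs_of_pos hM]
    have h6 := h2 x hx y hy.2 (Ne.symm hy.1)
    have h7 : 0 < |(x : ℝ) - y| := by
      by_contra hcon
      have : |(x : ℝ) - y| = 0 := le_antisymm (not_lt.1 hcon) (abs_nonneg _)
      rw [this, mul_zero] at h6
      linarith
    have h8 : |(y : ℝ)| ≤ M := by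
      rw [abs_of_nonneg (by positivity)]
      exact h1 y hy.2
    rw [inv_div, div_mul_div_comm, mul_comm M, mul_div_mul_right _ _ hM.ne', div_le_iff₀ h7]
    exact h8.trans h6
  refine (Finset.prod_le_prod (fun _ _ => abs_nonneg _) h5).trans ?_
  rw [Finset.prod_const, Finset.card_erase_of_mem hx]
  exact pow_le_pow_right₀ hδ (by omega)

theorem union_bound {α : Type*} [DecidableEq α] (T : Finset ℤ) (G : ℤ → Finset α) (g h : ℕ)
    (hg : ∀ w ∈ T, (G w).card = g) (hh : ∀ w ∈ T, ∀ w' ∈ T, w ≠ w' → (G w ∩ G w').card ≤ h) :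
    T.card * g ≤ (T.biUnion G).card + T.card * (T.card * h) := by
  obtain ⟨H, hH⟩ : ∃ H : ℤ → Finset α, H = fun w => G w \ (T.erase w).biUnion G := ⟨_, rfl⟩
  have h1 : ∀ w ∈ T, g ≤ (H w).card + T.card * h := by
    intro w hw
    have e : (G w).card = (G w ∩ (T.erase w).biUnion G).card + (H w).card := by
      rw [hH]
      exact (Finset.card_inter_add_card_sdiff _ _).symm
    have h2 : (G w ∩ (T.erase w).biUnion G).card ≤ T.card * h := by
      rw [Finset.inter_biUnion]
      refine Finset.card_biUnion_le.trans ?_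
      refine (Finset.sum_le_card_nsmul _ _ h fun w' hw' => ?_).trans ?_
      · rw [Finset.mem_erase] at hw'
        exact hh w hw w' hw'.2 (Ne.symm hw'.1)
      · rw [smul_eq_mul]
        exact Nat.mul_le_mul_right _ (Finset.card_le_card (Finset.erase_subset _ _))
    have h3 := hg w hw
    omega
  have h2 : T.card * g ≤ ∑ w ∈ T, ((H w).card + T.card * h) := by
    have h3 := Finset.card_nsmul_le_sum T (fun w => (H w).card + T.card * h) g h1
    rwa [smul_eq_mul] at h3
  have h3 : ∑ w ∈ T, (H w).card = (T.biUnion H).card := by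
    rw [Finset.card_biUnion]
    intro w hw w' hw' hne
    rw [Function.onFun, Finset.disjoint_left]
    intro a ha ha'
    rw [hH] at ha ha'
    simp only [Finset.mem_sdiff, Finset.mem_biUnion, not_exists, not_and] at ha ha'
    exact ha'.2 w (Finset.mem_erase.2 ⟨hne, hw⟩) ha.1
  have h4 : (T.biUnion H).card ≤ (T.biUnion G).card := by
    apply Finset.card_le_card
    apply Finset.biUnion_mono
    intro w _
    rw [hH]
    exact Finset.sdiff_subset
  rw [Finset.sum_add_distrib, h3, Finset.sum_const, smul_eq_mul] at h2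
  omega

theorem count : COUNTStm := by
  intro U hU m A
  obtain ⟨b, hb⟩ : ∃ b, b = 32 * (m + 1) := ⟨_, rfl⟩
  rw [← hb]
  refine ⟨b * (32 * m + 1) + 4 * ((2 * m + 1) * (2 * A) + 1), fun r hr T hT => ?_⟩
  obtain ⟨s, hs⟩ : ∃ s, s = r / b := ⟨_, rfl⟩
  rw [← hs]
  have hb0 : 0 < b := by omega
  have hsb : s * b ≤ r := by rw [hs]; exact Nat.div_mul_le_self r b
  have hs1 : 32 * m + 1 ≤ s := by
    rw [hs, Nat.le_div_iff_mul_le hb0, mul_comm]
    omega
  have hsm : 32 * (m * s) + 32 * s ≤ r := by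
    have : s * b = 32 * (m * s) + 32 * s := by rw [hb]; ring
    omega
  have hr4 : (2 * m + 1) * (2 * A) + 1 ≤ r / 4 := by
    rw [Nat.le_div_iff_mul_le (by norm_num)]
    omega
  -- the estimate used against the interpolation
  have hest : (2 * m + 1) * (2 * A * (2 ^ (4 * s)) ^ (2 * m + 1)) < 2 ^ (r - r / 2) := by
    have h1 : (2 * m + 1) * (2 * A) < 2 ^ (r / 4) :=
      lt_of_lt_of_le (by omega) (hr4.trans (Nat.lt_two_pow_self).le)
    have h2 : (2 ^ (4 * s)) ^ (2 * m + 1) ≤ 2 ^ (r / 4) := by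
      rw [← pow_mul]
      apply Nat.pow_le_pow_right (by norm_num)
      rw [Nat.le_div_iff_mul_le (by norm_num)]
      have : 4 * s * (2 * m + 1) * 4 = 32 * (m * s) + 16 * s := by ring
      omega
    have h3 : 2 ^ (r / 4) * 2 ^ (r / 4) ≤ 2 ^ (r - r / 2) := by
      rw [← pow_add]
      exact Nat.pow_le_pow_right (by norm_num) (by omega)
    calc (2 * m + 1) * (2 * A * (2 ^ (4 * s)) ^ (2 * m + 1)) =
        ((2 * m + 1) * (2 * A)) * (2 ^ (4 * s)) ^ (2 * m + 1) := by ring
      _ ≤ ((2 * m + 1) * (2 * A)) * 2 ^ (r / 4) := Nat.mul_le_mul_left _ h2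
      _ < 2 ^ (r / 4) * 2 ^ (r / 4) := Nat.mul_lt_mul_of_pos_right h1 (by positivity)
      _ ≤ _ := h3
  -- choose the data
  have hex : ∀ w ∈ T, ∃ c : List ℤ, c.length = 2 * m + 1 ∧ w * 2 ^ (r - r / 2) ≤ c.headI ∧
      c.headI < (w + 1) * 2 ^ (r - r / 2) ∧ ∃ G : Finset (ℤ × ℤ × ℕ), G.card = 2 ^ (r - s) ∧
        Set.InjOn (col r) (G : Set (ℤ × ℤ × ℕ)) ∧
        ∀ v ∈ G, col r v ≤ 2 ^ r ∧ near m A r c v ∧ Kc U v ≤ r + s := by
    intro w hw
    obtain ⟨-, c, hc1, ⟨l, hl1, hl2, hl3⟩, hc3, hc4⟩ := hT w hw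
    refine ⟨c, hc1, hc3, hc4, ?_⟩
    classical
    have hv : ∀ τ : ℕ, ∃ v : ℤ × ℤ × ℕ, τ ∈ l → τ ≤ 2 ^ r ∧ col r v = τ ∧ near m A r c v ∧
        Kc U v ≤ r + s := by
      intro τ
      by_cases hτ : τ ∈ l
      · obtain ⟨h1, v, h2, h3, h4⟩ := hl3 τ hτ
        exact ⟨v, fun _ => ⟨h1, h2, h3, by rw [hs]; exact h4⟩⟩
      · exact ⟨(0, 0, 0), fun h => absurd h hτ⟩
    choose v hv using hv
    have hvi : Set.InjOn v (l.toFinset : Set ℕ) := by
      intro τ hτ τ' hτ' h
      have h1 : τ ∈ l := by simpa using hτ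
      have h2 : τ' ∈ l := by simpa using hτ'
      have h3 := (hv τ h1).2.1
      rw [h, (hv τ' h2).2.1] at h3
      exact h3.symm
    refine ⟨l.toFinset.image v, ?_, ?_, ?_⟩
    · rw [Finset.card_image_of_injOn hvi, List.toFinset_card_of_nodup hl1, hl2, hs]
    · intro x hx y hy h
      rw [Finset.coe_image, Set.mem_image] at hx hy
      obtain ⟨τ, hτ, rfl⟩ := hx
      obtain ⟨τ', hτ', rfl⟩ := hy
      have h1 : τ ∈ l := by simpa using hτ
      have h2 : τ' ∈ l := by simpa using hτ'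
      rw [(hv τ h1).2.1, (hv τ' h2).2.1] at h
      rw [h]
    · intro x hx
      rw [Finset.mem_image] at hx
      obtain ⟨τ, hτ, rfl⟩ := hx
      have h1 : τ ∈ l := by simpa using hτ
      obtain ⟨a1, a2, a3, a4⟩ := hv τ h1
      exact ⟨by rw [a2]; exact a1, a3, a4⟩
  have hexa : ∀ w : ℤ, ∃ (c : List ℤ) (G : Finset (ℤ × ℤ × ℕ)), w ∈ T → c.length = 2 * m + 1 ∧
      w * 2 ^ (r - r / 2) ≤ c.headI ∧ c.headI < (w + 1) * 2 ^ (r - r / 2) ∧
      G.card = 2 ^ (r - s) ∧ Set.InjOn (col r) (G : Set (ℤ × ℤ × ℕ)) ∧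
      ∀ v ∈ G, col r v ≤ 2 ^ r ∧ near m A r c v ∧ Kc U v ≤ r + s := by
    intro w
    by_cases hw : w ∈ T
    · obtain ⟨c, h1, h2, h3, G, h4, h5, h6⟩ := hex w hw
      exact ⟨c, G, fun _ => ⟨h1, h2, h3, h4, h5, h6⟩⟩
    · exact ⟨[], ∅, fun h => absurd h hw⟩
  choose c G hcG using hexa
  classical
  -- intersections
  have hint : ∀ w ∈ T, ∀ w' ∈ T, w + 2 ≤ w' → (G w ∩ G w').card ≤ 2 * m * 2 ^ (r - 4 * s) := by
    intro w hw w' hw' hww
    obtain ⟨a1, a2, a3, a4, a5, a6⟩ := hcG w hw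
    obtain ⟨b1, b2, b3, b4, b5, b6⟩ := hcG w' hw'
    by_contra hcon
    rw [not_le] at hcon
    have hJ : ((G w ∩ G w').image (col r)).card = (G w ∩ G w').card :=
      Finset.card_image_of_injOn fun x hx y hy h => a5
        (Finset.mem_coe.2 (Finset.mem_inter.1 (Finset.mem_coe.1 hx)).1)
        (Finset.mem_coe.2 (Finset.mem_inter.1 (Finset.mem_coe.1 hy)).1) h
    rw [← hJ] at hcon
    obtain ⟨N, hN1, hN2, hN3⟩ := spread (2 ^ (r - 4 * s)) Nat.one_le_two_pow (2 * m) _ hcon
    have hNv : ∀ x ∈ N, ∃ v, v ∈ G w ∧ v ∈ G w' ∧ col r v = x := by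
      intro x hx
      have h1 := hN1 hx
      rw [Finset.mem_image] at h1
      obtain ⟨v, hv, hvx⟩ := h1
      rw [Finset.mem_inter] at hv
      exact ⟨v, hv.1, hv.2, hvx⟩
    have h2r : (0 : ℝ) < 2 ^ r := by positivity
    obtain ⟨q, hq⟩ : ∃ q, q = pp (c w') - pp (c w) := ⟨_, rfl⟩
    have hdeg : q.degree < N.card := by
      rw [Polynomial.degree_lt_iff_coeff_zero]
      intro k hk
      rw [hN2] at hk
      rw [hq, Polynomial.coeff_sub, pp_coeff _ k (by rw [b1]; exact hk),
        pp_coeff _ k (by rw [a1]; exact hk), sub_zero]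
    have hlag := lagrange_bound q N hdeg (2 ^ r) (2 ^ (4 * s)) (2 * A) h2r
      (one_le_pow₀ (by norm_num)) (by positivity) (by
        intro x hx
        obtain ⟨v, hv1, _, hv3⟩ := hNv x hx
        have := (a6 v hv1).1
        rw [hv3] at this
        exact_mod_cast this) (by
        intro x hx y hy hxy
        have e : (2 : ℝ) ^ r = 2 ^ (4 * s) * 2 ^ (r - 4 * s) := by
          rw [← pow_add]
          congr 1
          omega
        rw [e]
        apply mul_le_mul_of_nonneg_left _ (by positivity)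
        rcases lt_or_gt_of_ne hxy with h | h
        · have h1 := hN3 x hx y hy h
          have h2 : (x : ℝ) + 2 ^ (r - 4 * s) ≤ y := by exact_mod_cast h1
          rw [abs_sub_comm]
          exact le_trans (by linarith) (le_abs_self _)
        · have h1 := hN3 y hy x hx h
          have h2 : (y : ℝ) + 2 ^ (r - 4 * s) ≤ x := by exact_mod_cast h1
          exact le_trans (by linarith) (le_abs_self _)) (by
        intro x hx
        obtain ⟨v, hv1, hv2, hv3⟩ := hNv x hx
        have n1 := (near_iff m A r (c w) v a1).1 (a6 v hv1).2.1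
        have n2 := (near_iff m A r (c w') v b1).1 (b6 v hv2).2.1
        rw [hv3] at n1 n2
        rw [hq, Polynomial.eval_sub, pp_eval, pp_eval]
        have n1' := abs_le.1 n1
        have n2' := abs_le.1 n2
        rw [abs_le]
        constructor
        · linarith [n1'.1, n1'.2, n2'.1, n2'.2]
        · linarith [n1'.1, n1'.2, n2'.1, n2'.2])
    rw [hN2, hq, Polynomial.eval_sub, pp_zero, pp_zero] at hlag
    have hgap : (2 : ℤ) ^ (r - r / 2) ≤ (c w').headI - (c w).headI := by
      have h1 : (w + 2) * 2 ^ (r - r / 2) ≤ w' * 2 ^ (r - r / 2) :=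
        mul_le_mul_of_nonneg_right hww (by positivity)
      have e : (w + 2) * 2 ^ (r - r / 2) = (w + 1) * 2 ^ (r - r / 2) + 2 ^ (r - r / 2) := by ring
      rw [e] at h1
      linarith
    have hgap' : (2 : ℝ) ^ (r - r / 2) ≤ ((c w').headI : ℝ) - (c w).headI := by exact_mod_cast hgap
    have hest' : ((2 * m + 1 : ℕ) : ℝ) * (2 * A * (2 ^ (4 * s)) ^ (2 * m + 1)) < 2 ^ (r - r / 2) := by
      exact_mod_cast hest
    have := le_abs_self (((c w').headI : ℝ) - (c w).headI)
    linarith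
  -- a class of one parity
  have hpar : ∀ T' ⊆ T, (∀ w ∈ T', ∀ w' ∈ T', w < w' → w + 2 ≤ w') →
      T'.card ≤ 2 ^ (2 * s + 3) := by
    intro T' hT' hsep
    by_contra hcon
    rw [not_le] at hcon
    obtain ⟨T'', hT''1, hT''2⟩ := Finset.exists_subset_card_eq hcon.le
    have hub := union_bound T'' G (2 ^ (r - s)) (2 * m * 2 ^ (r - 4 * s))
      (fun w hw => (hcG w (hT' (hT''1 hw))).2.2.2.1) (by
        intro w hw w' hw' hne
        rcases lt_or_gt_of_ne hne with h | h
        · exact hint w (hT' (hT''1 hw)) w' (hT' (hT''1 hw'))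
            (hsep w (hT''1 hw) w' (hT''1 hw') h)
        · rw [Finset.inter_comm]
          exact hint w' (hT' (hT''1 hw')) w (hT' (hT''1 hw))
            (hsep w' (hT''1 hw') w (hT''1 hw) h))
    have hcard : (T''.biUnion G).card ≤ 2 ^ (r + s + 1) := by
      refine cnt U hU (r + s) _ fun v hv => ?_
      rw [Finset.mem_biUnion] at hv
      obtain ⟨w, hw, hv⟩ := hv
      exact ((hcG w (hT' (hT''1 hw))).2.2.2.2.2 v hv).2.2
    rw [hT''2] at hub
    have e1 : 2 ^ (2 * s + 3) * 2 ^ (r - s) = 8 * 2 ^ (r + s) := by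
      rw [← pow_add, show 2 * s + 3 + (r - s) = (r + s) + 3 by omega, pow_add]
      ring
    have e2 : 2 ^ (2 * s + 3) * (2 ^ (2 * s + 3) * (2 * m * 2 ^ (r - 4 * s))) =
        128 * m * 2 ^ r := by
      have h1 : (2 : ℕ) ^ r = 2 ^ (2 * s) * 2 ^ (2 * s) * 2 ^ (r - 4 * s) := by
        rw [← pow_add, ← pow_add]
        congr 1
        omega
      rw [h1, pow_add 2 (2 * s) 3]
      ring
    have e3 : 2 ^ (r + s + 1) = 2 * 2 ^ (r + s) := by rw [pow_succ]; ring
    have e4 : 128 * m * 2 ^ r ≤ 4 * 2 ^ (r + s) := by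
      rw [pow_add]
      have h1 : 32 * m ≤ 2 ^ s := le_trans (by omega) (Nat.lt_two_pow_self (n := s)).le
      calc 128 * m * 2 ^ r = 4 * 2 ^ r * (32 * m) := by ring
        _ ≤ 4 * 2 ^ r * 2 ^ s := Nat.mul_le_mul_left _ h1
        _ = _ := by ring
    rw [e1, e2] at hub
    rw [e3] at hcard
    have : 0 < 2 ^ (r + s) := by positivity
    omega
  have hsplit : T = T.filter (fun w => w % 2 = 0) ∪ T.filter (fun w => ¬ w % 2 = 0) :=
    (Finset.filter_union_filter_not_eq _ _).symm
  have h1 := hpar (T.filter fun w => w % 2 = 0) (Finset.filter_subset _ _) (by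
    intro w hw w' hw' h
    rw [Finset.mem_filter] at hw hw'
    omega)
  have h2 := hpar (T.filter fun w => ¬ w % 2 = 0) (Finset.filter_subset _ _) (by
    intro w hw w' hw' h
    rw [Finset.mem_filter] at hw hw'
    omega)
  have h3 : T.card ≤ (T.filter fun w => w % 2 = 0).card + (T.filter fun w => ¬ w % 2 = 0).card := by
    conv_lhs => rw [hsplit]
    exact Finset.card_union_le _ _
  have e : 2 ^ (2 * s + 4) = 2 ^ (2 * s + 3) + 2 ^ (2 * s + 3) := by ring
  rw [e]
  omega

end Pool.Agent.Q205.TD
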