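import Pool.Agent.Q217.PR.Req
import Pool.Agent.Q247.ML.Prim

/-! Definitions of the project TD (dimension spectra of graphs of trigonometric polynomials,
MP_39a050_lc). -/

set_option autoImplicit false

namespace Pool.Agent.Q205.TD

open Pool.Agent.Helper227 Q217.KT

/-- the complexity of the rational point `(v₁ / (v₃ + 1), v₂ / (v₃ + 1))` with the code `v` -/
noncomputable def Kc (U : List Bool →. List Bool) (v : ℤ × ℤ × ℕ) : ℕ :=
  cx U (natStr (Encodable.encode v))

/-- The complexity `K_r` of the point `(x, y)` of the plane at the precision `r`: the least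
complexity of a rational point `(v₁ / (v₃ + 1), v₂ / (v₃ + 1))` at Euclidean distance less than
`2 ^ (-r)`. -/
noncomputable def Kr (U : List Bool →. List Bool) (x y : ℝ) (r : ℕ) : ℕ :=
  sInf {n | ∃ v : ℤ × ℤ × ℕ,
    √(((v.1 : ℝ) / (v.2.2 + 1) - x) ^ 2 + ((v.2.1 : ℝ) / (v.2.2 + 1) - y) ^ 2) < (1 / 2) ^ r ∧
      n = Kc U v}

/-- The effective dimension of the point `(x, y)` of the plane: the lower limit of `K_r / r`. -/
noncomputable def edim (U : List Bool →. List Bool) (x y : ℝ) : EReal :=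
  Filter.liminf (fun r : ℕ => (((Kr U x y r : ℝ) / r : ℝ) : EReal)) Filter.atTop

/-- The trigonometric polynomial with the coefficients `a`, `b`. -/
noncomputable def trig (m : ℕ) (a b : ℕ → ℝ) (x : ℝ) : ℝ :=
  a 0 + ∑ k ∈ Finset.Icc 1 m, (a k * Real.cos (k * x) + b k * Real.sin (k * x))

/-- real and imaginary part of `(a + b i) ^ n` -/
def itr (a b : ℤ) : ℕ → ℤ × ℤ
  | 0 => (1, 0)
  | n + 1 => (a * (itr a b n).1 - b * (itr a b n).2, b * (itr a b n).1 + a * (itr a b n).2)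

/-- The column of the code `v` at the scale `2 ^ (-r)`: an approximation to `2 ^ r tan (q / 2)`,
`q = v₁ / (v₃ + 1)`, computed from `(1 + i q / (2 M)) ^ M`, `M = 2 ^ r`. -/
def col (r : ℕ) (v : ℤ × ℤ × ℕ) : ℕ :=
  (2 ^ r * (itr (2 * 2 ^ r * (v.2.2 + 1)) v.1 (2 ^ r)).2.toNat) /
    (itr (2 * 2 ^ r * (v.2.2 + 1)) v.1 (2 ^ r)).1.toNat

/-- Homogeneous evaluation: for a list `c` of length `n + 1` this is
`∑ k ≤ n, c_k τ ^ k 2 ^ (r (n - k))`. -/
def hom (r τ : ℕ) : List ℤ → ℤ
  | [] => 0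
  | c :: l => c * 2 ^ (r * l.length) + τ * hom r τ l

/-- The rational point with the code `v` is, after the substitution `t = tan (x / 2)`, near the
graph of the polynomial with the coefficients `c_k / 2 ^ r`: with `u = col r v / 2 ^ r` this says
`|∑ (c_k / 2 ^ r) u ^ k - (1 + u ^ 2) ^ m v₂ / (v₃ + 1)| ≤ A / 2 ^ r`. -/
def near (m A r : ℕ) (c : List ℤ) (v : ℤ × ℤ × ℕ) : Prop :=
  |((v.2.2 : ℤ) + 1) * hom r (col r v) c -
    (2 ^ (2 * r) + (col r v : ℤ) ^ 2) ^ m * 2 ^ r * v.2.1| ≤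
    (A : ℤ) * 2 ^ (2 * m * r) * ((v.2.2 : ℤ) + 1)

/-- The list `c` of coefficients is popular: there are `2 ^ (r - r / b)` columns which contain a
rational point of complexity at most `r + r / b` near the graph. -/
def Pop (U : List Bool →. List Bool) (m A b r : ℕ) (c : List ℤ) : Prop :=
  ∃ l : List ℕ, l.Nodup ∧ l.length = 2 ^ (r - r / b) ∧ ∀ τ ∈ l, τ ≤ 2 ^ r ∧
    ∃ v : ℤ × ℤ × ℕ, col r v = τ ∧ near m A r c v ∧ Kc U v ≤ r + r / b

/-- The approximations (at the scale `2 ^ (-r / 2)`) to the constant coefficients of the popular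
polynomials. -/
def W (U : List Bool →. List Bool) (m A b R r : ℕ) (w : ℤ) : Prop :=
  R ≤ r ∧ ∃ c : List ℤ, c.length = 2 * m + 1 ∧ Pop U m A b r c ∧
    w * 2 ^ (r - r / 2) ≤ c.headI ∧ c.headI < (w + 1) * 2 ^ (r - r / 2)

/-- The points of the unit interval over which the graph of `f` has small complexity at the
precision `r`. -/
noncomputable def low (U : List Bool →. List Bool) (f : ℝ → ℝ) (b r : ℕ) : Set ℝ :=
  {x | x ∈ Set.Icc (0 : ℝ) 1 ∧ Kr U x (f x) r ≤ r + r / b}

end Pool.Agent.Q205.TD
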