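import Pool.Agent.Q205.TD.Stm

/-! TDMEAS1 and TDMEAS2. -/

set_option autoImplicit false

namespace Pool.Agent.Q205.TD

open Pool.Agent.Helper227 Q217.KT Q217.PR MeasureTheory Filter

theorem bc (S : ℕ → Set ℝ) (g : ℕ → ℝ) (hg : Summable g) (hg0 : ∀ n, 0 ≤ g n)
    (h : ∀ n, volume (S n) ≤ ENNReal.ofReal (g n)) :
    ∃ x ∈ Set.Icc (0 : ℝ) 1, ∀ᶠ n in atTop, x ∉ S n := by
  have h1 : (∑' n, volume (S n)) ≠ ⊤ := by
    have h2 : (∑' n, volume (S n)) ≤ ∑' n, ENNReal.ofReal (g n) := ENNReal.tsum_le_tsum h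
    rw [← ENNReal.ofReal_tsum_of_nonneg hg0 hg] at h2
    exact (lt_of_le_of_lt h2 ENNReal.ofReal_lt_top).ne
  have h2 := ae_eventually_notMem h1
  by_contra hcon
  push Not at hcon
  have h3 : volume (Set.Icc (0 : ℝ) 1) ≤ volume {x | ¬ ∀ᶠ n in atTop, x ∉ S n} :=
    measure_mono fun x hx => by
      have := hcon x hx
      exact fun h' => this h'
  rw [show volume {x | ¬ ∀ᶠ n in atTop, x ∉ S n} = 0 from h2, Real.volume_Icc] at h3
  norm_num at h3

theorem Kr_spec (U : List Bool →. List Bool) (x y : ℝ) (r : ℕ) :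
    ∃ v : ℤ × ℤ × ℕ,
      √(((v.1 : ℝ) / (v.2.2 + 1) - x) ^ 2 + ((v.2.1 : ℝ) / (v.2.2 + 1) - y) ^ 2) < (1 / 2) ^ r ∧
      Kr U x y r = Kc U v := by
  have hne : {n | ∃ v : ℤ × ℤ × ℕ,
    √(((v.1 : ℝ) / (v.2.2 + 1) - x) ^ 2 + ((v.2.1 : ℝ) / (v.2.2 + 1) - y) ^ 2) < (1 / 2) ^ r ∧
      n = Kc U v}.Nonempty := by
    obtain ⟨N, hN⟩ := exists_nat_gt (2 / ((1 / 2 : ℝ) ^ r))
    have hr : (0 : ℝ) < (1 / 2) ^ r := by positivity
    have hN0 : (0 : ℝ) < N := lt_trans (by positivity) hN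
    have hN1 : 2 / ((N : ℝ) + 1) < (1 / 2) ^ r := by
      rw [div_lt_iff₀ hr] at hN
      rw [div_lt_iff₀ (by positivity)]
      nlinarith
    refine ⟨_, (⌊x * (N + 1)⌋, ⌊y * (N + 1)⌋, N), ?_, rfl⟩
    have hb : ∀ z : ℝ, |(⌊z * (N + 1)⌋ : ℝ) / ((N : ℝ) + 1) - z| ≤ 1 / ((N : ℝ) + 1) := by
      intro z
      have e : (⌊z * (N + 1)⌋ : ℝ) / ((N : ℝ) + 1) - z =
          ((⌊z * (N + 1)⌋ : ℝ) - z * (N + 1)) / (N + 1) := by
        field_simp
      rw [e, abs_div, abs_of_pos (show (0 : ℝ) < N + 1 by positivity)]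
      apply div_le_div_of_nonneg_right _ (by positivity)
      rw [abs_le]
      have h1 := Int.floor_le (z * ((N : ℝ) + 1))
      have h2 := Int.lt_floor_add_one (z * ((N : ℝ) + 1))
      constructor <;> linarith
    refine lt_of_le_of_lt ?_ hN1
    rw [Real.sqrt_le_left (by positivity)]
    have h1 := sq_le_sq' (by have := (abs_le.1 (hb x)).1; linarith) (abs_le.1 (hb x)).2
    have h2 := sq_le_sq' (by have := (abs_le.1 (hb y)).1; linarith) (abs_le.1 (hb y)).2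
    have e : (2 / ((N : ℝ) + 1)) ^ 2 = 4 * (1 / ((N : ℝ) + 1)) ^ 2 := by ring
    rw [e]
    have h3 : 0 ≤ (1 / ((N : ℝ) + 1)) ^ 2 := by positivity
    simp only
    linarith
  obtain ⟨v, hv1, hv2⟩ := Nat.sInf_mem hne
  exact ⟨v, hv1, hv2⟩

theorem Kr_le (U : List Bool →. List Bool) (x y : ℝ) (r : ℕ) (v : ℤ × ℤ × ℕ)
    (h : √(((v.1 : ℝ) / (v.2.2 + 1) - x) ^ 2 + ((v.2.1 : ℝ) / (v.2.2 + 1) - y) ^ 2)
      < (1 / 2) ^ r) : Kr U x y r ≤ Kc U v :=
  Nat.sInf_le ⟨v, h, rfl⟩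

theorem abs_lt_of_sqrt {a b ε : ℝ} (h : √(a ^ 2 + b ^ 2) < ε) : |a| < ε ∧ |b| < ε := by
  constructor
  · refine lt_of_le_of_lt ?_ h
    exact Real.abs_le_sqrt (by nlinarith [sq_nonneg b])
  · refine lt_of_le_of_lt ?_ h
    exact Real.abs_le_sqrt (by nlinarith [sq_nonneg a])

theorem finite_codes (hcnt : CNTStm) {U : List Bool →. List Bool} (hU : OptimalPrefixFree U)
    (k : ℕ) : ∃ C : Finset (ℤ × ℤ × ℕ), C.card ≤ 2 ^ (k + 1) ∧ ∀ v, v ∈ C ↔ Kc U v ≤ k := by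
  classical
  have hfin : {v | Kc U v ≤ k}.Finite := by
    by_contra hinf
    obtain ⟨T, hT, hc⟩ := Set.Infinite.exists_subset_card_eq hinf (2 ^ (k + 1) + 1)
    have := hcnt U hU k T fun v hv => hT hv
    omega
  exact ⟨hfin.toFinset, hcnt U hU k _ fun v hv => by simpa using hv, fun v => by simp⟩

theorem meas1 (hcnt : CNTStm) : MEAS1Stm := by
  intro U hU f
  obtain ⟨S, hS⟩ : ∃ S : ℕ → Set ℝ, S = fun r => {x | Kr U x (f x) r ≤ 3 * r / 4} := ⟨_, rfl⟩
  have hg : Summable fun r : ℕ => 4 * (1 / 2 : ℝ) ^ (r / 4) := by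
    apply Summable.mul_left
    refine summable_of_sum_range_le (c := 2 * (4 : ℕ)) (fun _ => by positivity) fun n => ?_
    exact sum_half_div (by norm_num) n
  obtain ⟨x, hx, hx2⟩ := bc S (fun r : ℕ => 4 * (1 / 2 : ℝ) ^ (r / 4)) hg
    (fun _ => by positivity) (by
      intro r
      obtain ⟨C, hC1, hC2⟩ := finite_codes hcnt hU (3 * r / 4)
      have hsub : S r ⊆ ⋃ v ∈ C, Set.Ioo ((v.1 : ℝ) / (v.2.2 + 1) - (1 / 2) ^ r)
          ((v.1 : ℝ) / (v.2.2 + 1) + (1 / 2) ^ r) := by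
        intro x hx
        rw [hS] at hx
        obtain ⟨v, hv1, hv2⟩ := Kr_spec U x (f x) r
        have h1 := (abs_lt.1 (abs_lt_of_sqrt hv1).1)
        simp only [Set.mem_iUnion, Set.mem_Ioo]
        refine ⟨v, (hC2 v).2 ?_, by linarith, by linarith⟩
        rw [← hv2]
        exact hx
      refine (measure_mono hsub).trans ((measure_biUnion_finset_le _ _).trans ?_)
      have h2 : ∀ v ∈ C, volume (Set.Ioo ((v.1 : ℝ) / (v.2.2 + 1) - (1 / 2) ^ r)
          ((v.1 : ℝ) / (v.2.2 + 1) + (1 / 2) ^ r)) = ENNReal.ofReal (2 * (1 / 2) ^ r) := by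
        intro v _
        rw [Real.volume_Ioo]
        congr 1
        ring
      rw [Finset.sum_congr rfl h2, Finset.sum_const, nsmul_eq_mul,
        ← ENNReal.ofReal_natCast, ← ENNReal.ofReal_mul (by positivity)]
      apply ENNReal.ofReal_le_ofReal
      have h3 : (C.card : ℝ) ≤ 2 ^ (3 * r / 4 + 1) := by exact_mod_cast hC1
      have h4 : (1 / 2 : ℝ) ^ (r - 3 * r / 4) ≤ (1 / 2) ^ (r / 4) :=
        pow_le_pow_of_le_one (by norm_num) (by norm_num) (by omega)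
      have h5 : (2 : ℝ) ^ (3 * r / 4) * (1 / 2) ^ r = (1 / 2) ^ (r - 3 * r / 4) := by
        have e : r = 3 * r / 4 + (r - 3 * r / 4) := by omega
        conv_lhs => rw [e]
        rw [pow_add (1 / 2 : ℝ)]
        have e2 : 3 * (3 * r / 4 + (r - 3 * r / 4)) / 4 = 3 * r / 4 := by rw [← e]
        rw [e2, ← mul_assoc, ← mul_pow]
        norm_num
      calc (C.card : ℝ) * (2 * (1 / 2) ^ r) ≤ 2 ^ (3 * r / 4 + 1) * (2 * (1 / 2) ^ r) := by
            gcongr
        _ = 4 * (2 ^ (3 * r / 4) * (1 / 2) ^ r) := by rw [pow_succ]; ring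
        _ = 4 * (1 / 2) ^ (r - 3 * r / 4) := by rw [h5]
        _ ≤ _ := by gcongr)
  refine ⟨x, hx, ?_⟩
  unfold edim
  refine le_liminf_of_le (by isBoundedDefault) ?_
  filter_upwards [hx2, eventually_ge_atTop 1] with r hr hr1
  rw [hS] at hr
  have h1 : 3 * r / 4 < Kr U x (f x) r := not_le.1 hr
  have h2 : 3 * r ≤ 4 * Kr U x (f x) r := by omega
  rw [EReal.coe_le_coe_iff, le_div_iff₀ (by exact_mod_cast hr1)]
  have h3 : (3 * r : ℝ) ≤ 4 * Kr U x (f x) r := by exact_mod_cast h2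
  linarith

theorem meas2 : MEAS2Stm := by
  intro U f b hb hf R
  by_contra hcon
  push Not at hcon
  obtain ⟨S, hS⟩ : ∃ S : ℕ → Set ℝ, S = fun r => if r < R then ∅ else low U f b r := ⟨_, rfl⟩
  have hg : Summable fun r : ℕ => 1 / ((r : ℝ) + 1) ^ 2 := by
    have := (summable_nat_add_iff 1).2 (Real.summable_one_div_nat_pow.2 (show 1 < 2 by norm_num))
    simpa using this
  obtain ⟨x, hx, hx2⟩ := bc S (fun r : ℕ => 1 / ((r : ℝ) + 1) ^ 2) hg
    (fun _ => by positivity) (by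
      intro r
      rw [hS]
      by_cases h : r < R
      · simp only [h, if_true, measure_empty]
        exact bot_le
      · simp only [h, if_false]
        exact (hcon r (not_lt.1 h)).le)
  have h1 : ((1 + 1 / (b : ℝ) : ℝ) : EReal) ≤ edim U x (f x) := by
    unfold edim
    refine le_liminf_of_le (by isBoundedDefault) ?_
    filter_upwards [hx2, eventually_ge_atTop (max 1 R)] with r hr hr1
    rw [hS] at hr
    have hr2 : ¬ r < R := by
      have := le_max_right 1 R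
      omega
    have hr3 : 1 ≤ r := by
      have := le_max_left 1 R
      omega
    simp only [hr2, if_false] at hr
    have h1 : r + r / b < Kr U x (f x) r := by
      by_contra hh
      exact hr ⟨hx, not_lt.1 hh⟩
    have h2 : (r : ℝ) / b ≤ ((r / b : ℕ) : ℝ) + 1 := by
      have hb' : (0 : ℝ) < b := by exact_mod_cast hb
      rw [div_le_iff₀ hb']
      have h5 := Nat.lt_mul_div_succ r (show 0 < b by omega)
      have h6 : (r : ℝ) < b * (((r / b : ℕ) : ℝ) + 1) := by exact_mod_cast h5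
      linarith [mul_comm (b : ℝ) (((r / b : ℕ) : ℝ) + 1)]
    have h3 : ((r + r / b + 1 : ℕ) : ℝ) ≤ Kr U x (f x) r := by exact_mod_cast h1
    push_cast at h3
    rw [EReal.coe_le_coe_iff, le_div_iff₀ (by exact_mod_cast hr3)]
    have e : (1 + 1 / (b : ℝ)) * r = r + r / b := by ring
    rw [e]
    linarith
  have h2 := h1.trans (hf x hx)
  have hb' : (0 : ℝ) < b := by exact_mod_cast hb
  have h3 : ((1 + 1 / (b : ℝ) : ℝ) : EReal) ≤ ((1 : ℝ) : EReal) := by exact_mod_cast h2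
  rw [EReal.coe_le_coe_iff] at h3
  have : 0 < 1 / (b : ℝ) := by positivity
  linarith

end Pool.Agent.Q205.TD
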