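import Pool.Agent.Q205.TD.Stm

/-! TDPOL. -/

set_option autoImplicit false

namespace Pool.Agent.Q205.TD

/-- representable after the substitution -/
def Rep (m : ℕ) (g : ℝ → ℝ) : Prop := ∃ P : ℕ → ℝ, ∀ x ∈ Set.Icc (0 : ℝ) 1,
  g x * (1 + Real.tan (x / 2) ^ 2) ^ m =
    ∑ k ∈ Finset.range (2 * m + 1), P k * Real.tan (x / 2) ^ k

theorem Rep.add {m : ℕ} {f g : ℝ → ℝ} (hf : Rep m f) (hg : Rep m g) :
    Rep m (fun x => f x + g x) := by
  obtain ⟨P, hP⟩ := hf
  obtain ⟨Q, hQ⟩ := hg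
  refine ⟨fun k => P k + Q k, fun x hx => ?_⟩
  simp only [add_mul, Finset.sum_add_distrib]
  rw [hP x hx, hQ x hx]

theorem Rep.smul {m : ℕ} {f : ℝ → ℝ} (c : ℝ) (hf : Rep m f) : Rep m (fun x => c * f x) := by
  obtain ⟨P, hP⟩ := hf
  refine ⟨fun k => c * P k, fun x hx => ?_⟩
  simp only [mul_assoc]
  rw [hP x hx, Finset.mul_sum]

theorem Rep.sum {m : ℕ} {ι : Type*} (s : Finset ι) {f : ι → ℝ → ℝ} (hf : ∀ i ∈ s, Rep m (f i)) :
    Rep m (fun x => ∑ i ∈ s, f i x) := by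
  classical
  induction s using Finset.induction_on with
  | empty => exact ⟨fun _ => 0, fun x _ => by simp⟩
  | insert i s hi ih =>
    have h1 := (hf i (Finset.mem_insert_self i s)).add
      (ih fun j hj => hf j (Finset.mem_insert_of_mem hj))
    obtain ⟨P, hP⟩ := h1
    refine ⟨P, fun x hx => ?_⟩
    rw [← hP x hx]
    simp only
    rw [Finset.sum_insert hi]

theorem cexp_rep (m k : ℕ) (hk : k ≤ m) : ∃ q : ℕ → ℂ, ∀ x ∈ Set.Icc (0 : ℝ) 1,
    Complex.exp ((k * x : ℝ) * Complex.I) * ((1 + Real.tan (x / 2) ^ 2 : ℝ) : ℂ) ^ m =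
      ∑ j ∈ Finset.range (2 * m + 1), q j * ((Real.tan (x / 2) ^ j : ℝ) : ℂ) := by
  obtain ⟨Q, hQ⟩ : ∃ Q : Polynomial ℂ, Q = (1 + Polynomial.C Complex.I * Polynomial.X) ^ (m + k) *
    (1 - Polynomial.C Complex.I * Polynomial.X) ^ (m - k) := ⟨_, rfl⟩
  have hdeg : Q.natDegree < 2 * m + 1 := by
    have h1 : (1 + Polynomial.C Complex.I * Polynomial.X : Polynomial ℂ).natDegree ≤ 1 := by
      compute_degree
    have h2 : (1 - Polynomial.C Complex.I * Polynomial.X : Polynomial ℂ).natDegree ≤ 1 := by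
      compute_degree
    have h3 : Q.natDegree ≤ (m + k) * 1 + (m - k) * 1 := by
      rw [hQ]
      exact Polynomial.natDegree_mul_le.trans (add_le_add
        (Polynomial.natDegree_pow_le_of_le _ h1) (Polynomial.natDegree_pow_le_of_le _ h2))
    omega
  refine ⟨Q.coeff, fun x hx => ?_⟩
  have e1 : ∑ j ∈ Finset.range (2 * m + 1), Q.coeff j * ((Real.tan (x / 2) ^ j : ℝ) : ℂ) =
      Q.eval ((Real.tan (x / 2) : ℝ) : ℂ) := by
    rw [Polynomial.eval_eq_sum_range' hdeg]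
    refine Finset.sum_congr rfl fun j _ => ?_
    push_cast
    rfl
  rw [e1, hQ]
  simp only [Polynomial.eval_mul, Polynomial.eval_pow, Polynomial.eval_add, Polynomial.eval_sub,
    Polynomial.eval_one, Polynomial.eval_C, Polynomial.eval_X]
  have hc : 0 < Real.cos (x / 2) := by
    apply Real.cos_pos_of_mem_Ioo
    constructor
    · have := Real.pi_pos; linarith [hx.1]
    · have := Real.pi_gt_three; linarith [hx.2]
  obtain ⟨c, hcd⟩ : ∃ c, c = Real.cos (x / 2) := ⟨_, rfl⟩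
  obtain ⟨s, hsd⟩ : ∃ s, s = Real.sin (x / 2) := ⟨_, rfl⟩
  have hcs : c ^ 2 + s ^ 2 = 1 := by rw [hcd, hsd]; exact Real.cos_sq_add_sin_sq _
  rw [Real.tan_eq_sin_div_cos, ← hcd, ← hsd]
  rw [← hcd] at hc
  have hc0 : (c : ℂ) ≠ 0 := by exact_mod_cast hc.ne'
  obtain ⟨z, hz⟩ : ∃ z : ℂ, z = c + s * Complex.I := ⟨_, rfl⟩
  obtain ⟨w, hw⟩ : ∃ w : ℂ, w = c - s * Complex.I := ⟨_, rfl⟩
  have hcs' : (c : ℂ) ^ 2 + (s : ℂ) ^ 2 = 1 := by exact_mod_cast hcs
  have hzw : z * w = 1 := by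
    rw [hz, hw]
    linear_combination hcs' - (s : ℂ) ^ 2 * Complex.I_sq
  have hzexp : z ^ 2 = Complex.exp ((x : ℝ) * Complex.I) := by
    have h1 : z = Complex.exp (((x / 2 : ℝ) : ℂ) * Complex.I) := by
      rw [hz, Complex.exp_mul_I, ← Complex.ofReal_cos, ← Complex.ofReal_sin, hcd, hsd]
    rw [h1, ← Complex.exp_nat_mul]
    congr 1
    push_cast
    ring
  have h1 : Complex.exp ((k * x : ℝ) * Complex.I) = z ^ (2 * k) := by
    rw [pow_mul, hzexp, ← Complex.exp_nat_mul]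
    congr 1
    push_cast
    ring
  have h2 : (1 + Complex.I * ((s / c : ℝ) : ℂ)) = z / c := by
    rw [hz]
    push_cast
    field_simp
  have h3 : (1 - Complex.I * ((s / c : ℝ) : ℂ)) = w / c := by
    rw [hw]
    push_cast
    field_simp
  have h4 : ((1 + (s / c) ^ 2 : ℝ) : ℂ) = 1 / (c : ℂ) ^ 2 := by
    push_cast
    field_simp
    exact hcs'
  rw [h1, h2, h3, h4, div_pow, div_pow, div_pow, one_pow]
  have h5 : z ^ (m + k) * w ^ (m - k) = z ^ (2 * k) := by
    have e : m + k = 2 * k + (m - k) := by omega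
    rw [e, pow_add, mul_assoc, ← mul_pow, hzw, one_pow, mul_one]
  have h6 : (c : ℂ) ^ (m + k) * (c : ℂ) ^ (m - k) = ((c : ℂ) ^ 2) ^ m := by
    rw [← pow_add, ← pow_mul]
    congr 1
    omega
  rw [div_mul_div_comm, h5, h6, mul_one_div]

theorem pol : POLStm := by
  intro m a b
  have hcos : ∀ k, k ≤ m → Rep m (fun x => Real.cos (k * x)) := by
    intro k hk
    obtain ⟨q, hq⟩ := cexp_rep m k hk
    refine ⟨fun j => (q j).re, fun x hx => ?_⟩
    have h := congrArg Complex.re (hq x hx)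
    rw [Complex.re_sum] at h
    rw [← Complex.ofReal_pow, Complex.re_mul_ofReal, Complex.exp_ofReal_mul_I_re] at h
    rw [h]
    exact Finset.sum_congr rfl fun j _ => Complex.re_mul_ofReal _ _
  have hsin : ∀ k, k ≤ m → Rep m (fun x => Real.sin (k * x)) := by
    intro k hk
    obtain ⟨q, hq⟩ := cexp_rep m k hk
    refine ⟨fun j => (q j).im, fun x hx => ?_⟩
    have h := congrArg Complex.im (hq x hx)
    rw [Complex.im_sum] at h
    rw [← Complex.ofReal_pow, Complex.im_mul_ofReal, Complex.exp_ofReal_mul_I_im] at h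
    rw [h]
    exact Finset.sum_congr rfl fun j _ => Complex.im_mul_ofReal _ _
  have h0 : Rep m (fun _ => a 0) := by
    obtain ⟨P, hP⟩ := (hcos 0 (Nat.zero_le _)).smul (a 0)
    refine ⟨P, fun x hx => ?_⟩
    rw [← hP x hx]
    simp
  have h1 : Rep m (fun x => ∑ k ∈ Finset.Icc 1 m,
      (a k * Real.cos (k * x) + b k * Real.sin (k * x))) := by
    apply Rep.sum
    intro k hk
    have hk' := (Finset.mem_Icc.1 hk).2
    exact ((hcos k hk').smul (a k)).add ((hsin k hk').smul (b k))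
  exact h0.add h1

end Pool.Agent.Q205.TD
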