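import Pool.Agent.Q205.TD.Tan
import Pool.Agent.Q205.TD.Pol
import Pool.Agent.Q205.TD.Meas

/-! TDEXI. -/

set_option autoImplicit false

namespace Pool.Agent.Q205.TD

open Pool.Agent.Helper227 Q217.KT Q217.PR MeasureTheory Filter

/-- value of the polynomial with the list `l` of coefficients -/
def pv (u : ℝ) : List ℤ → ℝ
  | [] => 0
  | c :: l => c + u * pv u l

theorem hom_eq (r τ : ℕ) (l : List ℤ) : (hom r τ l : ℝ) * 2 ^ r =
    2 ^ (r * l.length) * pv ((τ : ℝ) / 2 ^ r) l := by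
  induction l with
  | nil => simp [hom, pv]
  | cons c l ih =>
    have e : hom r τ (c :: l) = c * 2 ^ (r * l.length) + τ * hom r τ l := rfl
    have e2 : pv ((τ : ℝ) / 2 ^ r) (c :: l) = c + (τ : ℝ) / 2 ^ r * pv ((τ : ℝ) / 2 ^ r) l := rfl
    have h2 : (2 : ℝ) ^ r ≠ 0 := by positivity
    rw [e, e2, List.length_cons, Nat.mul_succ, pow_add]
    push_cast
    have e3 : ((c : ℝ) * 2 ^ (r * l.length) + τ * hom r τ l) * 2 ^ r =
        c * 2 ^ (r * l.length) * 2 ^ r + τ * (hom r τ l * 2 ^ r) := by ring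
    rw [e3, ih]
    field_simp

theorem near_iff (m A r : ℕ) (c : List ℤ) (v : ℤ × ℤ × ℕ) (hc : c.length = 2 * m + 1) :
    near m A r c v ↔ |pv ((col r v : ℝ) / 2 ^ r) c -
      (1 + ((col r v : ℝ) / 2 ^ r) ^ 2) ^ m * 2 ^ r * ((v.2.1 : ℝ) / ((v.2.2 : ℝ) + 1))| ≤
        (A : ℝ) := by
  obtain ⟨τ, hτ⟩ : ∃ τ, τ = col r v := ⟨_, rfl⟩
  unfold near
  rw [← hτ]
  have h2 : (0 : ℝ) < 2 ^ r := by positivity
  have hd : (0 : ℝ) < (v.2.2 : ℝ) + 1 := by positivity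
  have h1 : (hom r τ c : ℝ) = 2 ^ (2 * m * r) * pv ((τ : ℝ) / 2 ^ r) c := by
    have h := hom_eq r τ c
    rw [hc, show r * (2 * m + 1) = 2 * m * r + r by ring, pow_add] at h
    have h3 : (hom r τ c : ℝ) * 2 ^ r = (2 ^ (2 * m * r) * pv ((τ : ℝ) / 2 ^ r) c) * 2 ^ r := by
      rw [h]; ring
    exact mul_right_cancel₀ h2.ne' h3
  have h3 : ((2 : ℝ) ^ (2 * r) + (τ : ℝ) ^ 2) ^ m =
      2 ^ (2 * m * r) * (1 + ((τ : ℝ) / 2 ^ r) ^ 2) ^ m := by
    rw [show 2 * m * r = (2 * r) * m by ring, pow_mul (2 : ℝ) (2 * r) m, ← mul_pow]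
    congr 1
    rw [div_pow, ← pow_mul, mul_comm r 2]
    field_simp
  rw [← Int.cast_le (R := ℝ), Int.cast_abs]
  push_cast
  rw [h1, h3]
  have e : ((v.2.2 : ℝ) + 1) * (2 ^ (2 * m * r) * pv ((τ : ℝ) / 2 ^ r) c) -
      2 ^ (2 * m * r) * (1 + ((τ : ℝ) / 2 ^ r) ^ 2) ^ m * 2 ^ r * v.2.1 =
      (2 ^ (2 * m * r) * ((v.2.2 : ℝ) + 1)) * (pv ((τ : ℝ) / 2 ^ r) c -
      (1 + ((τ : ℝ) / 2 ^ r) ^ 2) ^ m * 2 ^ r * ((v.2.1 : ℝ) / ((v.2.2 : ℝ) + 1))) := by
    field_simp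
  rw [e, abs_mul, abs_of_pos (show (0 : ℝ) < 2 ^ (2 * m * r) * ((v.2.2 : ℝ) + 1) by positivity)]
  constructor
  · intro h
    have h4 : (2 ^ (2 * m * r) * ((v.2.2 : ℝ) + 1)) * |pv ((τ : ℝ) / 2 ^ r) c -
      (1 + ((τ : ℝ) / 2 ^ r) ^ 2) ^ m * 2 ^ r * ((v.2.1 : ℝ) / ((v.2.2 : ℝ) + 1))| ≤
      (2 ^ (2 * m * r) * ((v.2.2 : ℝ) + 1)) * A := by
      refine h.trans (le_of_eq ?_)
      ring
    exact le_of_mul_le_mul_left h4 (by positivity)
  · intro h
    calc (2 ^ (2 * m * r) * ((v.2.2 : ℝ) + 1)) * _ ≤ (2 ^ (2 * m * r) * ((v.2.2 : ℝ) + 1)) * A :=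
        mul_le_mul_of_nonneg_left h (by positivity)
      _ = _ := by ring

theorem pv_map (u : ℝ) (n : ℕ) (g : ℕ → ℤ) : pv u ((List.range n).map g) =
    ∑ k ∈ Finset.range n, (g k : ℝ) * u ^ k := by
  induction n generalizing g with
  | zero => simp [pv]
  | succ n ih =>
    rw [List.range_succ_eq_map, List.map_cons, List.map_map, Finset.sum_range_succ']
    have e2 : pv u (g 0 :: (List.range n).map (g ∘ Nat.succ)) =
      g 0 + u * pv u ((List.range n).map (g ∘ Nat.succ)) := rfl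
    rw [e2, ih, Finset.mul_sum, pow_zero, mul_one, add_comm]
    congr 1
    refine Finset.sum_congr rfl fun k _ => ?_
    simp only [Function.comp, Nat.succ_eq_add_one]
    rw [pow_succ]
    ring

theorem arctan_lip (a b : ℝ) : |Real.arctan a - Real.arctan b| ≤ |a - b| := by
  have h := convex_univ.norm_image_sub_le_of_norm_hasDerivWithin_le (f := Real.arctan)
    (f' := fun t => 1 / (1 + t ^ 2)) (C := 1) (s := (Set.univ : Set ℝ))
    (fun t _ => (Real.hasDerivAt_arctan t).hasDerivWithinAt) (by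
      intro t _
      rw [Real.norm_eq_abs, abs_of_nonneg (by positivity), div_le_one (by positivity)]
      nlinarith [sq_nonneg t]) (Set.mem_univ b) (Set.mem_univ a)
  simpa using h

theorem growth (b : ℕ) (hb : 1 ≤ b) : ∃ R : ℕ, ∀ r ≥ R, 16 * (r + 1) ^ 2 ≤ 2 ^ (r / b) := by
  have h1 : Tendsto (fun n : ℕ => (n : ℝ) ^ 2 / 2 ^ n) atTop (nhds 0) :=
    tendsto_pow_const_div_const_pow_of_one_lt 2 (by norm_num)
  have h2 : ∀ᶠ n : ℕ in atTop, (n : ℝ) ^ 2 / 2 ^ n < 1 / (32 * b ^ 2) :=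
    h1.eventually (gt_mem_nhds (by positivity))
  obtain ⟨N, hN⟩ := eventually_atTop.1 h2
  refine ⟨b * N, fun r hr => ?_⟩
  have h3 : N ≤ r / b := by
    rw [Nat.le_div_iff_mul_le (by omega)]
    rw [mul_comm]
    exact hr
  have h4 := hN (r / b + 1) (by omega)
  have h5 := Nat.lt_mul_div_succ r (show 0 < b by omega)
  have hb' : (0 : ℝ) < b := by exact_mod_cast hb
  rw [div_lt_div_iff₀ (by positivity) (by positivity)] at h4
  have h6 : (((r / b + 1 : ℕ) : ℝ)) ^ 2 * (32 * b ^ 2) < 1 * 2 ^ (r / b + 1) := h4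
  have h7 : (r / b + 1) ^ 2 * (32 * b ^ 2) < 2 ^ (r / b + 1) := by
    rw [one_mul] at h6
    exact_mod_cast h6
  have h8 : (r + 1) ^ 2 ≤ (b * (r / b + 1)) ^ 2 := Nat.pow_le_pow_left (by omega) 2
  rw [pow_succ 2 (r / b)] at h7
  have h9 : (b * (r / b + 1)) ^ 2 = (r / b + 1) ^ 2 * b ^ 2 := by ring
  rw [h9] at h8
  nlinarith

theorem exi : EXIStm := by
  intro U m a₁ b₁ b hb
  obtain ⟨P, hP⟩ := pol m a₁ b₁
  obtain ⟨f, hf⟩ : ∃ f, f = trig m a₁ b₁ := ⟨_, rfl⟩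
  rw [← hf] at hP
  obtain ⟨F, hF⟩ : ∃ F : ℝ, F = ∑ k ∈ Finset.range (2 * m + 1), |P k| := ⟨_, rfl⟩
  obtain ⟨L, hL⟩ : ∃ L : ℝ, L = ∑ k ∈ Finset.range (2 * m + 1), |P k| * k := ⟨_, rfl⟩
  have hF0 : 0 ≤ F := by rw [hF]; exact Finset.sum_nonneg fun _ _ => abs_nonneg _
  have hL0 : 0 ≤ L := by rw [hL]; exact Finset.sum_nonneg fun _ _ => by positivity
  obtain ⟨A, hA⟩ := exists_nat_ge ((2 * m + 1 : ℝ) + 4 * L + F * (8 * m * 2 ^ m) + 2 ^ m)
  obtain ⟨R, hR⟩ := growth b hb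
  refine ⟨A, max R 5, fun r hr hvol => ?_⟩
  have hrR : R ≤ r := le_trans (le_max_left _ _) hr
  have hr5 : 5 ≤ r := le_trans (le_max_right _ _) hr
  rw [← hf] at hvol
  rw [← hf]
  obtain ⟨c, hc⟩ : ∃ c : List ℤ, c = (List.range (2 * m + 1)).map fun k => ⌊2 ^ r * P k⌋ :=
    ⟨_, rfl⟩
  have hlen : c.length = 2 * m + 1 := by rw [hc]; simp
  have h2r : (0 : ℝ) < 2 ^ r := by positivity
  have htan : ∀ x ∈ Set.Icc (0 : ℝ) 1, 0 ≤ Real.tan (x / 2) ∧ Real.tan (x / 2) ≤ 1 := by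
    intro x hx
    have hx2 : x / 2 ∈ Set.Icc (-(3 / 5) : ℝ) (3 / 5) :=
      ⟨by linarith [hx.1], by linarith [hx.2]⟩
    have htan0 : 0 ≤ Real.tan (x / 2) := Real.tan_nonneg_of_nonneg_of_le_pi_div_two
      (by linarith [hx.1]) (by have := Real.pi_gt_three; linarith [hx.2])
    refine ⟨htan0, ?_⟩
    have h1 := tan_lip hx2 (show (0 : ℝ) ∈ Set.Icc (-(3 / 5) : ℝ) (3 / 5) by
      constructor <;> norm_num)
    rw [Real.tan_zero, sub_zero, sub_zero, abs_of_nonneg htan0,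
      abs_of_nonneg (show 0 ≤ x / 2 by linarith [hx.1])] at h1
    linarith [hx.2]
  -- near
  have hnear : ∀ x ∈ Set.Icc (0 : ℝ) 1, ∀ v : ℤ × ℤ × ℕ,
      |(v.1 : ℝ) / (v.2.2 + 1) - x| < (1 / 2) ^ r → |(v.2.1 : ℝ) / (v.2.2 + 1) - f x| < (1 / 2) ^ r →
      near m A r c v := by
    intro x hx v hv1 hv2
    have hhalf : ((1 / 2 : ℝ)) ^ r = 1 / 2 ^ r := by rw [one_div_pow]
    rw [hhalf] at hv1 hv2
    obtain ⟨hcol1, hcol2⟩ := tan r hr5 v x hx hv1
    rw [near_iff m A r c v hlen]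
    obtain ⟨u, hu⟩ : ∃ u : ℝ, u = (col r v : ℝ) / 2 ^ r := ⟨_, rfl⟩
    obtain ⟨t, ht⟩ : ∃ t : ℝ, t = Real.tan (x / 2) := ⟨_, rfl⟩
    obtain ⟨y, hy⟩ : ∃ y : ℝ, y = (v.2.1 : ℝ) / ((v.2.2 : ℝ) + 1) := ⟨_, rfl⟩
    rw [← hu, ← hy]
    rw [← hu, ← ht] at hcol2
    rw [← hy] at hv2
    have hu0 : 0 ≤ u := by rw [hu]; positivity
    have hu1 : u ≤ 1 := by
      rw [hu, div_le_one h2r]
      exact_mod_cast hcol1
    obtain ⟨ht0, ht1⟩ := htan x hx
    rw [← ht] at ht0 ht1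
    have hPx := hP x hx
    rw [← ht] at hPx
    -- four parts
    have hp1 : |pv u c - 2 ^ r * ∑ k ∈ Finset.range (2 * m + 1), P k * u ^ k| ≤ 2 * m + 1 := by
      rw [hc, pv_map, Finset.mul_sum, ← Finset.sum_sub_distrib]
      refine (Finset.abs_sum_le_sum_abs _ _).trans ?_
      have h1 : ∀ k ∈ Finset.range (2 * m + 1),
          |(⌊2 ^ r * P k⌋ : ℝ) * u ^ k - 2 ^ r * (P k * u ^ k)| ≤ 1 := by
        intro k _
        have e : (⌊2 ^ r * P k⌋ : ℝ) * u ^ k - 2 ^ r * (P k * u ^ k) =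
            ((⌊2 ^ r * P k⌋ : ℝ) - 2 ^ r * P k) * u ^ k := by ring
        rw [e, abs_mul, abs_of_nonneg (pow_nonneg hu0 k)]
        have h1 := Int.floor_le (2 ^ r * P k)
        have h2 := Int.lt_floor_add_one (2 ^ r * P k)
        have h3 : |(⌊2 ^ r * P k⌋ : ℝ) - 2 ^ r * P k| ≤ 1 := by
          rw [abs_le]
          constructor <;> linarith
        calc _ ≤ (1 : ℝ) * 1 := mul_le_mul h3 (pow_le_one₀ hu0 hu1) (pow_nonneg hu0 k)
              (by norm_num)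
          _ = 1 := by norm_num
      refine (Finset.sum_le_sum h1).trans (le_of_eq ?_)
      simp
    have hut : 2 ^ r * |u - t| ≤ 4 := by
      rw [le_div_iff₀ h2r] at hcol2
      linarith [mul_comm (2 ^ r : ℝ) |u - t|]
    have hp2 : |2 ^ r * ∑ k ∈ Finset.range (2 * m + 1), P k * u ^ k -
        2 ^ r * ∑ k ∈ Finset.range (2 * m + 1), P k * t ^ k| ≤ 4 * L := by
      rw [← mul_sub, ← Finset.sum_sub_distrib, abs_mul, abs_of_pos h2r]
      have h1 : |∑ k ∈ Finset.range (2 * m + 1), (P k * u ^ k - P k * t ^ k)| ≤ L * |u - t| := by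
        refine (Finset.abs_sum_le_sum_abs _ _).trans ?_
        rw [hL, Finset.sum_mul]
        refine Finset.sum_le_sum fun k _ => ?_
        rw [← mul_sub, abs_mul, mul_assoc]
        refine mul_le_mul_of_nonneg_left ?_ (abs_nonneg _)
        refine (abs_pow_sub_pow_le u t k).trans ?_
        have h1 : max |u| |t| ^ (k - 1) ≤ 1 := by
          apply pow_le_one₀ (le_max_of_le_left (abs_nonneg _))
          rw [abs_of_nonneg hu0, abs_of_nonneg ht0]
          exact max_le hu1 ht1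
        calc |u - t| * k * max |u| |t| ^ (k - 1) ≤ |u - t| * k * 1 := by gcongr
          _ = _ := by ring
      calc 2 ^ r * |∑ k ∈ Finset.range (2 * m + 1), (P k * u ^ k - P k * t ^ k)|
          ≤ 2 ^ r * (L * |u - t|) := by gcongr
        _ = L * (2 ^ r * |u - t|) := by ring
        _ ≤ L * 4 := by gcongr
        _ = 4 * L := by ring
    have hfx : |f x| ≤ F := by
      have h1 : 1 ≤ (1 + t ^ 2) ^ m := one_le_pow₀ (by nlinarith [sq_nonneg t])
      have h2 : |f x| ≤ |f x * (1 + t ^ 2) ^ m| := by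
        rw [abs_mul, abs_of_pos (show 0 < (1 + t ^ 2) ^ m by positivity)]
        exact le_mul_of_one_le_right (abs_nonneg _) h1
      refine h2.trans ?_
      rw [hPx, hF]
      refine (Finset.abs_sum_le_sum_abs _ _).trans (Finset.sum_le_sum fun k _ => ?_)
      rw [abs_mul, abs_of_nonneg (pow_nonneg ht0 k)]
      exact mul_le_of_le_one_right (abs_nonneg _) (pow_le_one₀ ht0 ht1)
    have hp3 : |2 ^ r * (f x * (1 + t ^ 2) ^ m) - 2 ^ r * (f x * (1 + u ^ 2) ^ m)| ≤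
        F * (8 * m * 2 ^ m) := by
      rw [← mul_sub, ← mul_sub, abs_mul, abs_mul, abs_of_pos h2r]
      have h1 : |(1 + t ^ 2) ^ m - (1 + u ^ 2) ^ m| ≤ (2 * |u - t|) * m * 2 ^ m := by
        refine (abs_pow_sub_pow_le _ _ m).trans ?_
        have h2 : |1 + t ^ 2 - (1 + u ^ 2)| ≤ 2 * |u - t| := by
          have e : 1 + t ^ 2 - (1 + u ^ 2) = -((u + t) * (u - t)) := by ring
          rw [e, abs_neg, abs_mul, abs_of_nonneg (show 0 ≤ u + t by linarith)]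
          gcongr
          linarith
        have h3 : max |1 + t ^ 2| |1 + u ^ 2| ^ (m - 1) ≤ 2 ^ m := by
          have h4 : max |1 + t ^ 2| |1 + u ^ 2| ≤ 2 := by
            rw [abs_of_nonneg (by positivity), abs_of_nonneg (by positivity)]
            exact max_le (by nlinarith) (by nlinarith)
          calc _ ≤ (2 : ℝ) ^ (m - 1) := by gcongr
            _ ≤ 2 ^ m := pow_le_pow_right₀ (by norm_num) (by omega)
        gcongr
      calc 2 ^ r * (|f x| * |(1 + t ^ 2) ^ m - (1 + u ^ 2) ^ m|)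
          ≤ 2 ^ r * (F * ((2 * |u - t|) * m * 2 ^ m)) := by gcongr
        _ = F * (2 * m * 2 ^ m) * (2 ^ r * |u - t|) := by ring
        _ ≤ F * (2 * m * 2 ^ m) * 4 := by gcongr
        _ = _ := by ring
    have hp4 : |2 ^ r * (f x * (1 + u ^ 2) ^ m) - (1 + u ^ 2) ^ m * 2 ^ r * y| ≤ 2 ^ m := by
      have e : 2 ^ r * (f x * (1 + u ^ 2) ^ m) - (1 + u ^ 2) ^ m * 2 ^ r * y =
          -((1 + u ^ 2) ^ m * (2 ^ r * (y - f x))) := by ring
      rw [e, abs_neg, abs_mul, abs_mul, abs_of_pos h2r,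
        abs_of_pos (show 0 < (1 + u ^ 2) ^ m by positivity)]
      have h1 : 2 ^ r * |y - f x| ≤ 1 := by
        rw [lt_div_iff₀ h2r] at hv2
        linarith [mul_comm (2 ^ r : ℝ) |y - f x|]
      have h2 : (1 + u ^ 2) ^ m ≤ 2 ^ m := by
        gcongr
        nlinarith
      calc (1 + u ^ 2) ^ m * (2 ^ r * |y - f x|) ≤ 2 ^ m * 1 := by gcongr
        _ = 2 ^ m := mul_one _
    rw [← hPx] at hp2
    have h1 := abs_le.1 hp1
    have h2 := abs_le.1 hp2
    have h3 := abs_le.1 hp3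
    have h4 := abs_le.1 hp4
    refine le_trans ?_ hA
    rw [abs_le]
    constructor
    · linarith [h1.1, h2.1, h3.1, h4.1]
    · linarith [h1.2, h2.2, h3.2, h4.2]
  -- the columns
  classical
  obtain ⟨T, hT⟩ : ∃ T : Finset ℕ, T = (Finset.range (2 ^ r + 1)).filter fun τ =>
    ∃ v : ℤ × ℤ × ℕ, col r v = τ ∧ near m A r c v ∧ Kc U v ≤ r + r / b := ⟨_, rfl⟩
  have hsub : low U f b r ⊆ ⋃ τ ∈ T, {x | x ∈ Set.Icc (0 : ℝ) 1 ∧
      |(τ : ℝ) / 2 ^ r - Real.tan (x / 2)| ≤ 4 / 2 ^ r} := by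
    rintro x ⟨hx, hK⟩
    obtain ⟨v, hv1, hv2⟩ := Kr_spec U x (f x) r
    obtain ⟨h1, h2⟩ := abs_lt_of_sqrt hv1
    have h1' : |(v.1 : ℝ) / ((v.2.2 : ℝ) + 1) - x| < 1 / 2 ^ r := by
      rw [← one_div_pow]; exact h1
    obtain ⟨hcol1, hcol2⟩ := tan r hr5 v x hx h1'
    simp only [Set.mem_iUnion]
    refine ⟨col r v, ?_, hx, hcol2⟩
    rw [hT, Finset.mem_filter, Finset.mem_range]
    exact ⟨by omega, v, rfl, hnear x hx v h1 h2, by rw [← hv2]; exact hK⟩
  have hvolT : volume (low U f b r) ≤ T.card * ENNReal.ofReal (16 / 2 ^ r) := by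
    refine (measure_mono hsub).trans ((measure_biUnion_finset_le _ _).trans ?_)
    have h1 : ∀ τ ∈ T, volume {x | x ∈ Set.Icc (0 : ℝ) 1 ∧
        |(τ : ℝ) / 2 ^ r - Real.tan (x / 2)| ≤ 4 / 2 ^ r} ≤ ENNReal.ofReal (16 / 2 ^ r) := by
      intro τ _
      refine (Real.volume_le_diam _).trans ?_
      refine Metric.ediam_le ?_
      intro x hx y hy
      rw [edist_dist]
      apply ENNReal.ofReal_le_ofReal
      rw [Real.dist_eq]
      have e1 : Real.arctan (Real.tan (x / 2)) = x / 2 := Real.arctan_tan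
        (by have := Real.pi_gt_three; linarith [hx.1.1])
        (by have := Real.pi_gt_three; linarith [hx.1.2])
      have e2 : Real.arctan (Real.tan (y / 2)) = y / 2 := Real.arctan_tan
        (by have := Real.pi_gt_three; linarith [hy.1.1])
        (by have := Real.pi_gt_three; linarith [hy.1.2])
      have h3 := arctan_lip (Real.tan (x / 2)) (Real.tan (y / 2))
      rw [e1, e2] at h3
      have h4 : |Real.tan (x / 2) - Real.tan (y / 2)| ≤ 4 / 2 ^ r + 4 / 2 ^ r := by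
        have e : Real.tan (x / 2) - Real.tan (y / 2) =
            ((τ : ℝ) / 2 ^ r - Real.tan (y / 2)) - ((τ : ℝ) / 2 ^ r - Real.tan (x / 2)) := by ring
        rw [e]
        exact (abs_sub _ _).trans (add_le_add hy.2 hx.2)
      have h5 : |x / 2 - y / 2| = |x - y| / 2 := by
        rw [← sub_div, abs_div, abs_of_pos (show (0 : ℝ) < 2 by norm_num)]
      rw [h5] at h3
      have e : (16 : ℝ) / 2 ^ r = 2 * (4 / 2 ^ r + 4 / 2 ^ r) := by ring
      rw [e]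
      linarith
    refine (Finset.sum_le_sum h1).trans ?_
    rw [Finset.sum_const, nsmul_eq_mul]
  have hcard : 2 ^ (r - r / b) ≤ T.card := by
    have h1 := hvol.trans hvolT
    rw [← ENNReal.ofReal_natCast, ← ENNReal.ofReal_mul (by positivity)] at h1
    have h2 := (ENNReal.ofReal_le_ofReal_iff (by positivity)).1 h1
    rw [mul_div_assoc', div_le_div_iff₀ (by positivity) h2r] at h2
    have h3 : (2 : ℝ) ^ r ≤ (T.card : ℝ) * (16 * (r + 1) ^ 2) := by linarith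
    have h4 : 2 ^ r ≤ T.card * (16 * (r + 1) ^ 2) := by exact_mod_cast h3
    have h5 : 2 ^ r = 2 ^ (r - r / b) * 2 ^ (r / b) := by
      rw [← pow_add]
      congr 1
      have := Nat.div_le_self r b
      omega
    have h6 := hR r hrR
    have h7 : 2 ^ (r - r / b) * 2 ^ (r / b) ≤ T.card * 2 ^ (r / b) := by
      rw [← h5]
      exact h4.trans (Nat.mul_le_mul_left _ h6)
    exact Nat.le_of_mul_le_mul_right h7 (by positivity)
  obtain ⟨T', hT'1, hT'2⟩ := Finset.exists_subset_card_eq hcard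
  refine ⟨c, hlen, ⟨T'.toList, T'.nodup_toList, by rw [Finset.length_toList, hT'2], ?_⟩, ?_⟩
  · intro τ hτ
    have h1 := hT'1 (Finset.mem_toList.1 hτ)
    rw [hT, Finset.mem_filter, Finset.mem_range] at h1
    exact ⟨by omega, h1.2⟩
  · have h0 := hP 0 ⟨le_refl _, by norm_num⟩
    rw [zero_div, Real.tan_zero] at h0
    have h1 : ∑ k ∈ Finset.range (2 * m + 1), P k * (0 : ℝ) ^ k = P 0 := by
      rw [Finset.sum_range_succ']
      simp
    rw [h1] at h0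
    have h2 : f 0 = P 0 := by
      rw [← h0]
      simp
    have h3 : c.headI = ⌊2 ^ r * P 0⌋ := by
      rw [hc, List.range_succ_eq_map]
      simp
    rw [h2, h3]
    have h4 := Int.floor_le (2 ^ r * P 0)
    have h5 := Int.lt_floor_add_one (2 ^ r * P 0)
    have e : (⌊2 ^ r * P 0⌋ : ℝ) / 2 ^ r - P 0 = ((⌊2 ^ r * P 0⌋ : ℝ) - 2 ^ r * P 0) / 2 ^ r := by
      field_simp
    rw [e, abs_div, abs_of_pos h2r]
    apply div_le_div_of_nonneg_right _ h2r.le
    rw [abs_le]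
    constructor <;> linarith

end Pool.Agent.Q205.TD
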