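import Pool.Agent.Q205.TD.KB

/-! TDSW. -/

set_option autoImplicit false

namespace Pool.Agent.Q205.TD

open Pool.Agent.Helper227 Q217.KT Q217.PR Q247.ML

theorem primrec_npow : Primrec₂ fun a b : ℕ => a ^ b := Primrec₂.unpaired'.1 Nat.Primrec.pow

theorem primrec_itr : Primrec fun z : (ℤ × ℤ) × ℕ => itr z.1.1 z.1.2 z.2 := by
  have hh : Primrec₂ fun (z : (ℤ × ℤ) × ℕ) (y : ℕ × (ℤ × ℤ)) =>
      ((z.1.1 * y.2.1 - z.1.2 * y.2.2, z.1.2 * y.2.1 + z.1.1 * y.2.2) : ℤ × ℤ) := by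
    have a : Primrec fun x : ((ℤ × ℤ) × ℕ) × (ℕ × (ℤ × ℤ)) => x.1.1.1 :=
      Primrec.fst.comp (Primrec.fst.comp Primrec.fst)
    have b : Primrec fun x : ((ℤ × ℤ) × ℕ) × (ℕ × (ℤ × ℤ)) => x.1.1.2 :=
      Primrec.snd.comp (Primrec.fst.comp Primrec.fst)
    have c : Primrec fun x : ((ℤ × ℤ) × ℕ) × (ℕ × (ℤ × ℤ)) => x.2.2.1 :=
      Primrec.fst.comp (Primrec.snd.comp Primrec.snd)
    have d : Primrec fun x : ((ℤ × ℤ) × ℕ) × (ℕ × (ℤ × ℤ)) => x.2.2.2 :=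
      Primrec.snd.comp (Primrec.snd.comp Primrec.snd)
    exact (prim_int_sub.comp (prim_int_mul.comp a c) (prim_int_mul.comp b d)).pair
      (prim_int_add.comp (prim_int_mul.comp b c) (prim_int_mul.comp a d))
  have h := Primrec.nat_rec' (f := fun z : (ℤ × ℤ) × ℕ => z.2)
    (g := fun _ => ((1, 0) : ℤ × ℤ)) (h := fun z y => ((z.1.1 * y.2.1 - z.1.2 * y.2.2,
      z.1.2 * y.2.1 + z.1.1 * y.2.2) : ℤ × ℤ)) Primrec.snd (Primrec.const _) hh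
  refine h.of_eq fun z => ?_
  obtain ⟨⟨a, b⟩, n⟩ := z
  simp only
  induction n with
  | zero => rfl
  | succ n ih =>
    have e : itr a b (n + 1) = (a * (itr a b n).1 - b * (itr a b n).2,
      b * (itr a b n).1 + a * (itr a b n).2) := rfl
    rw [e, ← ih]

theorem primrec_col : Primrec fun z : ℕ × (ℤ × ℤ × ℕ) => col z.1 z.2 := by
  have h1 : Primrec fun z : ℕ × (ℤ × ℤ × ℕ) => (((2 * 2 ^ z.1 * (z.2.2.2 + 1) : ℕ) : ℤ)) := by
    refine prim_natCast.comp (Primrec.nat_mul.comp (Primrec.nat_mul.comp (Primrec.const 2)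
      (primrec_two_pow.comp Primrec.fst)) (Primrec.succ.comp ?_))
    exact Primrec.snd.comp (Primrec.snd.comp Primrec.snd)
  have h2 : Primrec fun z : ℕ × (ℤ × ℤ × ℕ) => z.2.1 := Primrec.fst.comp Primrec.snd
  have h3 : Primrec fun z : ℕ × (ℤ × ℤ × ℕ) => 2 ^ z.1 := primrec_two_pow.comp Primrec.fst
  have h4 := primrec_itr.comp ((h1.pair h2).pair h3)
  have h5 := Primrec.nat_div.comp (Primrec.nat_mul.comp h3 (prim_toNat.comp
    (Primrec.snd.comp h4))) (prim_toNat.comp (Primrec.fst.comp h4))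
  refine h5.of_eq fun z => ?_
  unfold col
  have e : (((2 * 2 ^ z.1 * (z.2.2.2 + 1) : ℕ) : ℤ)) = 2 * 2 ^ z.1 * ((z.2.2.2 : ℤ) + 1) := by
    push_cast
    ring
  simp only [e]

theorem primrec_hom : Primrec fun z : (ℕ × ℕ) × List ℤ => hom z.1.1 z.1.2 z.2 := by
  have hh : Primrec₂ fun (z : (ℕ × ℕ) × List ℤ) (y : ℤ × List ℤ × ℤ) =>
      y.1 * ((2 ^ (z.1.1 * y.2.1.length) : ℕ) : ℤ) + ((z.1.2 : ℕ) : ℤ) * y.2.2 := by
    have r : Primrec fun x : ((ℕ × ℕ) × List ℤ) × (ℤ × List ℤ × ℤ) => x.1.1.1 :=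
      Primrec.fst.comp (Primrec.fst.comp Primrec.fst)
    have t : Primrec fun x : ((ℕ × ℕ) × List ℤ) × (ℤ × List ℤ × ℤ) => x.1.1.2 :=
      Primrec.snd.comp (Primrec.fst.comp Primrec.fst)
    have c : Primrec fun x : ((ℕ × ℕ) × List ℤ) × (ℤ × List ℤ × ℤ) => x.2.1 :=
      Primrec.fst.comp Primrec.snd
    have l : Primrec fun x : ((ℕ × ℕ) × List ℤ) × (ℤ × List ℤ × ℤ) => x.2.2.1.length :=
      Primrec.list_length.comp (Primrec.fst.comp (Primrec.snd.comp Primrec.snd))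
    have i : Primrec fun x : ((ℕ × ℕ) × List ℤ) × (ℤ × List ℤ × ℤ) => x.2.2.2 :=
      Primrec.snd.comp (Primrec.snd.comp Primrec.snd)
    exact prim_int_add.comp (prim_int_mul.comp c (prim_natCast.comp (primrec_two_pow.comp
      (Primrec.nat_mul.comp r l)))) (prim_int_mul.comp (prim_natCast.comp t) i)
  have h := Primrec.list_rec (f := fun z : (ℕ × ℕ) × List ℤ => z.2)
    (g := fun _ => (0 : ℤ)) (h := fun (z : (ℕ × ℕ) × List ℤ) (y : ℤ × List ℤ × ℤ) =>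
      y.1 * ((2 ^ (z.1.1 * y.2.1.length) : ℕ) : ℤ) + ((z.1.2 : ℕ) : ℤ) * y.2.2)
    Primrec.snd (Primrec.const _) hh
  refine h.of_eq fun z => ?_
  obtain ⟨⟨r, τ⟩, l⟩ := z
  simp only
  induction l with
  | nil => rfl
  | cons c l ih =>
    have e : hom r τ (c :: l) = c * 2 ^ (r * l.length) + τ * hom r τ l := rfl
    rw [e, ← ih]
    push_cast
    rfl

theorem primrec_int_le : PrimrecRel fun x y : ℤ => x ≤ y := by
  refine (Primrec.eq.comp (prim_toNat.comp (prim_int_sub.comp Primrec.fst Primrec.snd))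
    (Primrec.const 0)).of_eq fun z => ?_
  rw [Int.toNat_eq_zero]
  exact sub_nonpos

theorem primrec_near (m A : ℕ) : PrimrecPred fun z : (ℕ × List ℤ) × (ℤ × ℤ × ℕ) =>
    near m A z.1.1 z.1.2 z.2 := by
  have r : Primrec fun z : (ℕ × List ℤ) × (ℤ × ℤ × ℕ) => z.1.1 := Primrec.fst.comp Primrec.fst
  have c : Primrec fun z : (ℕ × List ℤ) × (ℤ × ℤ × ℕ) => z.1.2 := Primrec.snd.comp Primrec.fst
  have v2 : Primrec fun z : (ℕ × List ℤ) × (ℤ × ℤ × ℕ) => z.2.2.1 :=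
    Primrec.fst.comp (Primrec.snd.comp Primrec.snd)
  have d : Primrec fun z : (ℕ × List ℤ) × (ℤ × ℤ × ℕ) => z.2.2.2 + 1 :=
    Primrec.succ.comp (Primrec.snd.comp (Primrec.snd.comp Primrec.snd))
  have col' : Primrec fun z : (ℕ × List ℤ) × (ℤ × ℤ × ℕ) => col z.1.1 z.2 :=
    primrec_col.comp (r.pair Primrec.snd)
  have hom' : Primrec fun z : (ℕ × List ℤ) × (ℤ × ℤ × ℕ) => hom z.1.1 (col z.1.1 z.2) z.1.2 :=
    primrec_hom.comp ((r.pair col').pair c)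
  have h1 : Primrec fun z : (ℕ × List ℤ) × (ℤ × ℤ × ℕ) =>
      (((z.2.2.2 + 1 : ℕ) : ℤ) * hom z.1.1 (col z.1.1 z.2) z.1.2 -
        (((2 ^ (2 * z.1.1) + col z.1.1 z.2 ^ 2) ^ m * 2 ^ z.1.1 : ℕ) : ℤ) * z.2.2.1).natAbs := by
    refine prim_natAbs.comp (prim_int_sub.comp (prim_int_mul.comp (prim_natCast.comp d) hom')
      (prim_int_mul.comp (prim_natCast.comp (Primrec.nat_mul.comp (primrec_npow.comp
        (Primrec.nat_add.comp (primrec_two_pow.comp (Primrec.nat_mul.comp (Primrec.const 2) r))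
          (primrec_npow.comp col' (Primrec.const 2))) (Primrec.const m))
        (primrec_two_pow.comp r))) v2))
  have h2 : Primrec fun z : (ℕ × List ℤ) × (ℤ × ℤ × ℕ) =>
      A * 2 ^ (2 * m * z.1.1) * (z.2.2.2 + 1) :=
    Primrec.nat_mul.comp (Primrec.nat_mul.comp (Primrec.const A) (primrec_two_pow.comp
      (Primrec.nat_mul.comp (Primrec.const (2 * m)) r))) d
  refine (Primrec.nat_le.comp h1 h2).of_eq fun z => ?_
  have key : ∀ (x : ℤ) (n : ℕ), x.natAbs ≤ n ↔ |x| ≤ (n : ℤ) := fun x n => by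
    rw [Int.abs_eq_natAbs]
    omega
  unfold near
  rw [key]
  push_cast
  exact Iff.rfl

theorem s1_Kc {U : List Bool →. List Bool} (hU : OptimalPrefixFree U) :
    S1 fun z : (ℤ × ℤ × ℕ) × ℕ => Kc U z.1 ≤ z.2 := by
  obtain ⟨eU, heU, heU2, -⟩ := Q217.CO.enum_graph hU.1.1
  have h1 : S1 fun z : (ℤ × ℤ × ℕ) × ℕ => ∃ p : List Bool, ∃ n : ℕ,
      p.length ≤ z.2 ∧ eU n = some (p, natStr (Encodable.encode z.1)) := by
    refine S1.ex (S1.ex (S1.of_prim ?_))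
    refine PrimrecPred.and ?_ ?_
    · exact Primrec.nat_le.comp (Primrec.list_length.comp (Primrec.snd.comp Primrec.fst))
        (Primrec.snd.comp (Primrec.fst.comp Primrec.fst))
    · refine Primrec.eq.comp (heU.comp Primrec.snd) (Primrec.option_some.comp
        ((Primrec.snd.comp Primrec.fst).pair (primrec_natStr.comp (Primrec.encode.comp
          (Primrec.fst.comp (Primrec.fst.comp Primrec.fst))))))
  refine h1.of_eq fun z => ?_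
  constructor
  · rintro ⟨p, n, h2, h3⟩
    exact (cx_le ((heU2 _ _).2 ⟨n, h3⟩)).trans h2
  · intro h
    obtain ⟨p, hp1, hp2⟩ := cx_spec (exists_desc hU (Encodable.encode z.1))
    obtain ⟨n, hn⟩ := (heU2 _ _).1 hp2
    exact ⟨p, n, by rw [hp1]; exact h, hn⟩

theorem primrec_nodup : PrimrecPred fun l : List ℕ => l.Nodup := by
  have h : PrimrecPred fun l : List ℕ => ∀ j < l.length, ∀ i < j, l[i]? ≠ l[j]? := by
    refine PP.all_lt (α := List ℕ) (p := fun l j => ∀ i < j, l[i]? ≠ l[j]?) ?_ Primrec.list_length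
    refine PP.all_lt (α := List ℕ × ℕ) (p := fun z i => z.1[i]? ≠ z.1[z.2]?) ?_ Primrec.snd
    exact PrimrecPred.not (Primrec.eq.comp
      (Primrec.list_getElem?.comp (Primrec.fst.comp Primrec.fst) Primrec.snd)
      (Primrec.list_getElem?.comp (Primrec.fst.comp Primrec.fst)
        (Primrec.snd.comp Primrec.fst)))
  refine h.of_eq fun l => ?_
  rw [List.nodup_iff_getElem?_ne_getElem?]
  constructor
  · intro h i j hij hj
    exact h j hj i hij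
  · intro h j hj i hij
    exact h i j hij hj

theorem s1_Pop {U : List Bool →. List Bool} (hU : OptimalPrefixFree U) (m A b : ℕ) :
    S1 fun z : ℕ × List ℤ => Pop U m A b z.1 z.2 := by
  have r : Primrec fun x : ((ℕ × List ℤ) × List ℕ) × ℕ => x.1.1.1 :=
    Primrec.fst.comp (Primrec.fst.comp Primrec.fst)
  have r' : Primrec fun x : (((ℕ × List ℤ) × List ℕ) × ℕ) × (ℤ × ℤ × ℕ) => x.1.1.1.1 :=
    r.comp Primrec.fst
  have c' : Primrec fun x : (((ℕ × List ℤ) × List ℕ) × ℕ) × (ℤ × ℤ × ℕ) => x.1.1.1.2 :=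
    Primrec.snd.comp (Primrec.fst.comp (Primrec.fst.comp Primrec.fst))
  have a1 : PrimrecPred fun x : (ℕ × List ℤ) × List ℕ => x.2.Nodup :=
    primrec_nodup.comp Primrec.snd
  have a2 : PrimrecPred fun x : (ℕ × List ℤ) × List ℕ => x.2.length = 2 ^ (x.1.1 - x.1.1 / b) :=
    Primrec.eq.comp (Primrec.list_length.comp Primrec.snd) (primrec_two_pow.comp
      (Primrec.nat_sub.comp (Primrec.fst.comp Primrec.fst) (Primrec.nat_div.comp
        (Primrec.fst.comp Primrec.fst) (Primrec.const b))))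
  have a3 : PrimrecPred fun x : ((ℕ × List ℤ) × List ℕ) × ℕ => x.2 ≤ 2 ^ x.1.1.1 :=
    Primrec.nat_le.comp Primrec.snd (primrec_two_pow.comp r)
  have a4 : PrimrecPred fun x : (((ℕ × List ℤ) × List ℕ) × ℕ) × (ℤ × ℤ × ℕ) =>
      col x.1.1.1.1 x.2 = x.1.2 :=
    Primrec.eq.comp (primrec_col.comp (r'.pair Primrec.snd)) (Primrec.snd.comp Primrec.fst)
  have a5 : PrimrecPred fun x : (((ℕ × List ℤ) × List ℕ) × ℕ) × (ℤ × ℤ × ℕ) =>
      near m A x.1.1.1.1 x.1.1.1.2 x.2 :=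
    PrimrecPred.comp (p := fun z : (ℕ × List ℤ) × (ℤ × ℤ × ℕ) => near m A z.1.1 z.1.2 z.2)
      (f := fun x : (((ℕ × List ℤ) × List ℕ) × ℕ) × (ℤ × ℤ × ℕ) =>
        ((x.1.1.1.1, x.1.1.1.2), x.2)) (primrec_near m A) ((r'.pair c').pair Primrec.snd)
  have a6' : Primrec fun x : (((ℕ × List ℤ) × List ℕ) × ℕ) × (ℤ × ℤ × ℕ) =>
      (x.2, x.1.1.1.1 + x.1.1.1.1 / b) :=
    Primrec.snd.pair (Primrec.nat_add.comp r' (Primrec.nat_div.comp r' (Primrec.const b)))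
  have a6 : S1 fun x : (((ℕ × List ℤ) × List ℕ) × ℕ) × (ℤ × ℤ × ℕ) =>
      Kc U x.2 ≤ x.1.1.1.1 + x.1.1.1.1 / b :=
    S1.comp (p := fun z : (ℤ × ℤ × ℕ) × ℕ => Kc U z.1 ≤ z.2)
      (f := fun x : (((ℕ × List ℤ) × List ℕ) × ℕ) × (ℤ × ℤ × ℕ) =>
        (x.2, x.1.1.1.1 + x.1.1.1.1 / b)) (s1_Kc hU) a6'
  have b1 : S1 fun x : ((ℕ × List ℤ) × List ℕ) × ℕ => ∃ v : ℤ × ℤ × ℕ, col x.1.1.1 v = x.2 ∧
      near m A x.1.1.1 x.1.1.2 v ∧ Kc U v ≤ x.1.1.1 + x.1.1.1 / b :=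
    S1.ex (p := fun (x : ((ℕ × List ℤ) × List ℕ) × ℕ) (v : ℤ × ℤ × ℕ) => col x.1.1.1 v = x.2 ∧
      near m A x.1.1.1 x.1.1.2 v ∧ Kc U v ≤ x.1.1.1 + x.1.1.1 / b)
      (S1.and (S1.of_prim a4) (S1.and (S1.of_prim a5) a6))
  have b2 : S1 fun x : ((ℕ × List ℤ) × List ℕ) × ℕ => x.2 ≤ 2 ^ x.1.1.1 ∧
      ∃ v : ℤ × ℤ × ℕ, col x.1.1.1 v = x.2 ∧
      near m A x.1.1.1 x.1.1.2 v ∧ Kc U v ≤ x.1.1.1 + x.1.1.1 / b := S1.and (S1.of_prim a3) b1
  have b3 : S1 fun x : (ℕ × List ℤ) × List ℕ => ∀ τ ∈ x.2, τ ≤ 2 ^ x.1.1 ∧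
      ∃ v : ℤ × ℤ × ℕ, col x.1.1 v = τ ∧
      near m A x.1.1 x.1.2 v ∧ Kc U v ≤ x.1.1 + x.1.1 / b :=
    S1.all_mem (α := (ℕ × List ℤ) × List ℕ) (β := ℕ) (f := fun x => x.2)
      (p := fun x τ => τ ≤ 2 ^ x.1.1 ∧ ∃ v : ℤ × ℤ × ℕ, col x.1.1 v = τ ∧
        near m A x.1.1 x.1.2 v ∧ Kc U v ≤ x.1.1 + x.1.1 / b) b2 Primrec.snd
  have b4 : S1 fun z : ℕ × List ℤ => ∃ l : List ℕ, l.Nodup ∧ l.length = 2 ^ (z.1 - z.1 / b) ∧
      ∀ τ ∈ l, τ ≤ 2 ^ z.1 ∧ ∃ v : ℤ × ℤ × ℕ, col z.1 v = τ ∧ near m A z.1 z.2 v ∧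
        Kc U v ≤ z.1 + z.1 / b :=
    S1.ex (p := fun (z : ℕ × List ℤ) (l : List ℕ) => l.Nodup ∧ l.length = 2 ^ (z.1 - z.1 / b) ∧
      ∀ τ ∈ l, τ ≤ 2 ^ z.1 ∧ ∃ v : ℤ × ℤ × ℕ, col z.1 v = τ ∧ near m A z.1 z.2 v ∧
        Kc U v ≤ z.1 + z.1 / b)
      (S1.and (S1.of_prim a1) (S1.and (S1.of_prim a2) b3))
  exact b4

theorem sw : SWStm := by
  intro U hU m A b R
  have r : Primrec fun x : (ℕ × ℤ) × List ℤ => x.1.1 := Primrec.fst.comp Primrec.fst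
  have w : Primrec fun x : (ℕ × ℤ) × List ℤ => x.1.2 := Primrec.snd.comp Primrec.fst
  have e : Primrec fun x : (ℕ × ℤ) × List ℤ => ((2 ^ (x.1.1 - x.1.1 / 2) : ℕ) : ℤ) :=
    prim_natCast.comp (primrec_two_pow.comp (Primrec.nat_sub.comp r
      (Primrec.nat_div.comp r (Primrec.const 2))))
  have hd : Primrec fun x : (ℕ × ℤ) × List ℤ => x.2.headI :=
    Primrec.list_headI.comp Primrec.snd
  have a1 : PrimrecPred fun x : ℕ × ℤ => R ≤ x.1 :=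
    Primrec.nat_le.comp (Primrec.const R) Primrec.fst
  have a2 : PrimrecPred fun x : (ℕ × ℤ) × List ℤ => x.2.length = 2 * m + 1 :=
    Primrec.eq.comp (Primrec.list_length.comp Primrec.snd) (Primrec.const (2 * m + 1))
  have a3 : S1 fun x : (ℕ × ℤ) × List ℤ => Pop U m A b x.1.1 x.2 :=
    (s1_Pop hU m A b).comp (r.pair Primrec.snd)
  have a4 : PrimrecPred fun x : (ℕ × ℤ) × List ℤ =>
      x.1.2 * 2 ^ (x.1.1 - x.1.1 / 2) ≤ x.2.headI := by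
    refine (primrec_int_le.comp (prim_int_mul.comp w e) hd).of_eq fun x => ?_
    push_cast
    exact Iff.rfl
  have a5 : PrimrecPred fun x : (ℕ × ℤ) × List ℤ =>
      x.2.headI < (x.1.2 + 1) * 2 ^ (x.1.1 - x.1.1 / 2) := by
    refine (primrec_int_le.comp (prim_int_add.comp hd (Primrec.const 1)) (prim_int_mul.comp
      (prim_int_add.comp w (Primrec.const 1)) e)).of_eq fun x => ?_
    push_cast
    exact Iff.rfl
  have h : S1 fun z : ℕ × ℤ => R ≤ z.1 ∧ ∃ c : List ℤ, c.length = 2 * m + 1 ∧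
      Pop U m A b z.1 c ∧ z.2 * 2 ^ (z.1 - z.1 / 2) ≤ c.headI ∧
      c.headI < (z.2 + 1) * 2 ^ (z.1 - z.1 / 2) :=
    S1.and (S1.of_prim a1) (S1.ex (p := fun (z : ℕ × ℤ) (c : List ℤ) => c.length = 2 * m + 1 ∧
      Pop U m A b z.1 c ∧ z.2 * 2 ^ (z.1 - z.1 / 2) ≤ c.headI ∧
      c.headI < (z.2 + 1) * 2 ^ (z.1 - z.1 / 2))
      (S1.and (S1.of_prim a2) (S1.and a3 (S1.and (S1.of_prim a4) (S1.of_prim a5)))))
  exact h

end Pool.Agent.Q205.TD
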