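import Pool.Agent.Q205.TD.Defs

/-! Statements of the lemmas of the project TD (MP_39a050_lc: no trigonometric polynomial graph
has a singleton dimension spectrum), with their proofs on paper. -/

set_option autoImplicit false

namespace Pool.Agent.Q205.TD

open Pool.Agent.Helper227 Q217.KT MeasureTheory

/-- **TDCNT.** At most `2 ^ (k + 1)` codes have complexity at most `k`.

Proof. For an optimal prefix-free machine every string has a description (compare with the machine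
`p ↦ ...`; look for an existing lemma in `Pool/Agent/Q217/KT/Mach.lean`, `Pool/Agent/Q217/PR`,
`Pool/Agent/Q217/CO`). Hence for each `v ∈ T` there is `p_v` of length `Kc U v ≤ k` with
`natStr (encode v) ∈ U p_v` (`Nat.sInf_mem`). `v ↦ p_v` is injective because `natStr` and `encode`
are injective and `Part` values are unique, and there are less than `2 ^ (k + 1)` strings of length
at most `k`. -/
def CNTStm : Prop := ∀ U : List Bool →. List Bool, OptimalPrefixFree U →
  ∀ (k : ℕ) (T : Finset (ℤ × ℤ × ℕ)), (∀ v ∈ T, Kc U v ≤ k) → T.card ≤ 2 ^ (k + 1)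

/-- **TDKB.** Short descriptions of the elements of small enumerable sets.

Proof. Let `q : ℕ × ℤ → ℕ → Prop` be the matrix of the `S1` predicate. Requests
`y = (r, w, n) : ℕ × ℤ × ℕ`, admissible (`P y`) if `q (r, w) n` and `¬ q (r, w) n'` for `n' < n`
(primitive recursive; `n` is determined by `r, w`), length
`g r + r / b + c₀` with `2 * b ≤ 2 ^ c₀`, description `natStr (encode ((0 : ℤ), w, 2 ^ (l r) - 1))`.
Kraft: group by `r`: `∑ ≤ ∑_r 2 ^ (g r) * 2 ^ (-(g r) - r / b - c₀) ≤ 2 ^ (-c₀) * ∑_r 2 ^ (-(r / b))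
≤ 2 ^ (-c₀) * 2 b ≤ 1` (`Q217.PR.sum_half_div`, model: `Q217.PR.kraft` in
`Pool/Agent/Q217/PR/Req.lean`). Then `Q217.PR.machine` gives the constant. -/
def KBStm : Prop := ∀ U : List Bool →. List Bool, OptimalPrefixFree U →
  ∀ Wp : ℕ × ℤ → Prop, S1 Wp → ∀ g l : ℕ → ℕ, Primrec g → Primrec l → ∀ b : ℕ, 1 ≤ b →
    (∀ (r : ℕ) (T : Finset ℤ), (∀ w ∈ T, Wp (r, w)) → T.card ≤ 2 ^ g r) →
      ∃ c : ℕ, ∀ (r : ℕ) (w : ℤ), Wp (r, w) → Kc U (0, w, 2 ^ l r - 1) ≤ g r + r / b + c

/-- **TDSW.** The predicate `W` is recursively enumerable.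

Proof. Closure properties of `S1` (`Pool/Agent/Helper227/SOne.lean`: `S1.and`, `S1.ex`,
`S1.all_mem`, `S1.of_prim`, `S1.comp`, `S1.of_eq`). `Kc U v ≤ k` iff there is a description `p` of
length at most `k` with `natStr (encode v) ∈ U p` (every string has a description for an optimal
machine); `x ∈ U p` is `S1` in `(x, p)` (`s1_output` or similar in `Pool/Agent/Helper227`, or
`S1.of_re`). The other conditions are primitive recursive: `itr a b n` (by recursion on `n`, with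
`prim_int_mul` etc. of `Pool/Agent/Q247/ML/Prim.lean`), `col`, `hom` (`Primrec.list_rec` or via
`List.foldr`), `near` (an inequality of integers: `x ≤ y ↔ (x - y).toNat = 0`), powers with
exponent depending on `r`, `List.Nodup` (or use pairwise over indices). -/
def SWStm : Prop := ∀ U : List Bool →. List Bool, OptimalPrefixFree U → ∀ m A b R : ℕ,
  S1 fun z : ℕ × ℤ => W U m A b R z.1 z.2

/-- **TDTAN.** The column approximates `2 ^ r tan (x / 2)`.

Proof. Let `M = 2 ^ r`, `d = v₃ + 1`, `q = v₁ / d ∈ [-1/32, 1 + 1/32]` and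
`(X, Y) = itr (2 M d) v₁ M`. Then `X + i Y = (2 M d + i v₁) ^ M = (2 M d) ^ M (1 + i q / (2 M)) ^ M`
(induction), so `X = ρ ^ M cos (M θ)`, `Y = ρ ^ M sin (M θ)` with `θ = arctan (q / (2 M))`,
`ρ = |2 M d + i v₁| > 0`. Now `|θ - q / (2 M)| ≤ |q / (2 M)| ^ 3 / 3` or any cubic bound, hence
`|M θ - q / 2| ≤ 1 / (4 M)` (as `M ≥ 32`, very wasteful) and `|M θ| ≤ 0.6`, so `X > 0` and
`Y / X = tan (M θ)`, `|Y / X - tan (q / 2)| ≤ 2 |M θ - q / 2| ≤ 1 / (2 M)` since the derivative of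
`tan` is at most `2` on `[-0.6, 0.6]`; also `|tan (q / 2) - tan (x / 2)| ≤ |q - x| ≤ 1 / M`.
`col r v = ⌊2 ^ r Y⁺ / X⌋`, so `|col / 2 ^ r - max (Y / X) 0| ≤ 1 / M`, and
`|max (Y / X) 0 - tan (x / 2)| ≤ |Y / X - tan (x / 2)|` because `tan (x / 2) ≥ 0`. Altogether the
error is at most `4 / M`. Finally `Y / X ≤ tan (1 / 2) + 2 / 32 < 1`, so `col ≤ 2 ^ r`. -/
def TANStm : Prop := ∀ r : ℕ, 5 ≤ r → ∀ (v : ℤ × ℤ × ℕ) (x : ℝ), x ∈ Set.Icc (0 : ℝ) 1 →
  |(v.1 : ℝ) / ((v.2.2 : ℝ) + 1) - x| < 1 / 2 ^ r →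
    col r v ≤ 2 ^ r ∧ |(col r v : ℝ) / 2 ^ r - Real.tan (x / 2)| ≤ 4 / 2 ^ r

/-- **TDPOL.** The substitution `t = tan (x / 2)`.

Proof. For `|x| ≤ 1` and `t = tan (x / 2)` we have `exp (i x) = (1 + i t) / (1 - i t)`, so
`exp (i k x) (1 + t ^ 2) ^ m = (1 + i t) ^ (m + k) (1 - i t) ^ (m - k)` for `k ≤ m`; this is a
complex polynomial in `t` of degree at most `2 m`, and for real `t` its real and imaginary parts
are real polynomials (`Re (∑ q_j t ^ j) = ∑ (Re q_j) t ^ j`) of degree at most `2 m`. The functions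
`g` for which such a representation exists are closed under sums and real multiples. -/
def POLStm : Prop := ∀ (m : ℕ) (a b : ℕ → ℝ), ∃ P : ℕ → ℝ, ∀ x ∈ Set.Icc (0 : ℝ) 1,
  trig m a b x * (1 + Real.tan (x / 2) ^ 2) ^ m =
    ∑ k ∈ Finset.range (2 * m + 1), P k * Real.tan (x / 2) ^ k

/-- **TDCOUNT.** There are few approximations to constant coefficients of popular polynomials.

Proof. Let `b = 32 (m + 1)`, `s = r / b`. For `w ∈ T` choose `c_w` (`W`), the list `l_w` of
columns and codes `v_{w,τ}` (`τ ∈ l_w`). It suffices to bound the number of elements of `T` of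
each parity by `κ = 2 ^ (2 s + 3)`; otherwise there is a subset `T'` of exactly `κ` elements of the
same parity. Put `G_w = {v_{w,τ} : τ ∈ l_w}`: a set of exactly `2 ^ (r - s)` codes (one for each
column, so pairwise distinct), all of complexity at most `r + s`.
(i) Let `w < w'` in `T'`; so `w' - w ≥ 2` and the constant coefficients satisfy
`c'_0 - c_0 ≥ 2 ^ (r - r / 2)`. If `v ∈ G_w ∩ G_{w'}` then with `τ = col r v ≤ 2 ^ r`,
`u = τ / 2 ^ r ∈ [0, 1]` the two conditions `near` give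
`|∑ (c'_k - c_k) / 2 ^ r * u ^ k| ≤ 2 A / 2 ^ r`. Let `N = 2 m + 1`,
`D = 2 ^ (r - 4 s)`. If `|G_w ∩ G_{w'}| > 2 m D` then among the columns of the intersection
(distinct numbers) there are `N` which are pairwise at distance at least `D` (sort them and take
each `D`-th); by Lagrange interpolation at `0` of the polynomial
`p (u) = ∑ (c'_k - c_k) / 2 ^ r * u ^ k` of degree `≤ 2 m = N - 1`,
`|p 0| ≤ ∑_j |p (u_j)| ∏_{i ≠ j} |u_i| / |u_i - u_j| ≤ N (2 A / 2 ^ r) (2 ^ (4 s)) ^ (2 m)`, and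
`8 m s ≤ r / 4`, so this is `< 2 ^ (- r / 2)` for large `r`, while
`|p 0| = (c'_0 - c_0) / 2 ^ r ≥ 2 ^ (- (r / 2))`, a contradiction. So the intersections have at
most `2 m 2 ^ (r - 4 s)` elements.
(ii) Hence `|⋃ G_w| ≥ κ 2 ^ (r - s) - κ ^ 2 m 2 ^ (r - 4 s) = 2 ^ (r + s + 3) - 64 m 2 ^ r`
`> 2 ^ (r + s + 1)` for large `r`, contradicting `CNTStm` with `k = r + s`. (The union bound: e.g.
enumerate `T'` and subtract the earlier sets, or `∑_w |G_w| - ∑_{w<w'} |G_w ∩ G_{w'}| ≤ |⋃ G_w|`.)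
-/
def COUNTStm : Prop := ∀ U : List Bool →. List Bool, OptimalPrefixFree U → ∀ m A : ℕ,
  ∃ R : ℕ, ∀ r ≥ R, ∀ T : Finset ℤ, (∀ w ∈ T, W U m A (32 * (m + 1)) R r w) →
    T.card ≤ 2 ^ (2 * (r / (32 * (m + 1))) + 4)

/-- **TDEXI.** Where the graph has small complexity, the polynomial is popular.

Proof. Let `P` be as in `POLStm` and `c_k = ⌊2 ^ r P_k⌋` for `k ≤ 2 m`. `P 0 = f 0` (`x = 0`), so
the last condition holds. Let `x ∈ low U f b r`. By definition of `Kr` (`Nat.sInf_mem`, the set is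
nonempty) there is a code `v` with `Kc U v ≤ r + r / b` at distance less than `2 ^ (-r)` from
`(x, f x)`, so both coordinates are within `2 ^ (-r)`. Let `τ = col r v`, `u = τ / 2 ^ r ∈ [0, 1]`,
`t = tan (x / 2) ∈ [0, 1]`; `|u - t| ≤ 4 / 2 ^ r` by `TANStm`. Then `near m A r c v`: dividing by
`(v₃ + 1) 2 ^ (r (2 m + 1))` it says
`|∑_k (c_k / 2 ^ r) u ^ k - (1 + u ^ 2) ^ m v₂ / (v₃ + 1)| ≤ A / 2 ^ r` (induction on the list for
`hom`), and the left side is at most `|∑ (c_k / 2 ^ r - P_k) u ^ k| + |P (u) - P (t)| +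
|f x| |(1 + t ^ 2) ^ m - (1 + u ^ 2) ^ m| + (1 + u ^ 2) ^ m |f x - v₂ / (v₃ + 1)|`, each at most a
constant (depending on `m, a, b` only: `f` is bounded, polynomials are Lipschitz on `[0, 1]`) times
`2 ^ (-r)`. Finally the set of the `x` with the same `τ` has diameter at most `16 / 2 ^ r`
(`|tan (x / 2) - tan (x' / 2)| ≥ |x - x'| / 2`), so the volume of `low` is at most
`16 / 2 ^ r` (or `32 / 2 ^ r`) times the number of columns `τ` which occur; hence this number is at
least `2 ^ r / (32 (r + 1) ^ 2) ≥ 2 ^ (r - r / b)` for large `r`. Take a duplicate-free list of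
exactly `2 ^ (r - r / b)` of these columns. -/
def EXIStm : Prop := ∀ (U : List Bool →. List Bool) (m : ℕ) (a₁ b₁ : ℕ → ℝ) (b : ℕ), 1 ≤ b →
  ∃ A R : ℕ, ∀ r ≥ R, ENNReal.ofReal (1 / ((r : ℝ) + 1) ^ 2) ≤
    volume (low U (trig m a₁ b₁) b r) →
      ∃ c : List ℤ, c.length = 2 * m + 1 ∧ Pop U m A b r c ∧
        |(c.headI : ℝ) / 2 ^ r - trig m a₁ b₁ 0| ≤ 1 / 2 ^ r

/-- **TDMEAS1.** Every graph over the unit interval has a point of dimension at least `3 / 4`.

Proof. Let `k = 3 * r / 4` and `B_r = {x ∈ [0,1] : Kr U x (f x) r ≤ k}`. For `x ∈ B_r` there is a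
code `v` (`Nat.sInf_mem`) with `Kc U v ≤ k` and `|v₁ / (v₃ + 1) - x| < 2 ^ (-r)`; there are at most
`2 ^ (k + 1)` such codes by `CNTStm` (so the set of codes is finite), so
`volume B_r ≤ 2 ^ (k + 1) * 2 * 2 ^ (-r)`, summable. By Borel-Cantelli
(`measure_limsup_atTop_eq_zero`, no measurability is needed) some `x ∈ [0,1]` (which has measure
`1`) is in only finitely many `B_r`; for it `Kr U x (f x) r ≥ 3 r / 4` for large `r`, so the lower
limit of `Kr / r` is at least `3 / 4`. -/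
def MEAS1Stm : Prop := ∀ U : List Bool →. List Bool, OptimalPrefixFree U → ∀ f : ℝ → ℝ,
  ∃ x : ℝ, x ∈ Set.Icc (0 : ℝ) 1 ∧ ((3 / 4 : ℝ) : EReal) ≤ edim U x (f x)

/-- **TDMEAS2.** If all points over the unit interval have dimension at most one then `low` is
large infinitely often.

Proof. Otherwise `volume (low U f b r) < 1 / (r + 1) ^ 2` for all `r ≥ R`; by Borel-Cantelli some
`x ∈ [0,1]` is in only finitely many of the sets `low U f b r`, so `Kr U x (f x) r > r + r / b`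
(natural number division), hence `Kr U x (f x) r ≥ r + r / b` (real division), for all large `r`
and the lower limit is at least `1 + 1 / b > 1`. -/
def MEAS2Stm : Prop := ∀ (U : List Bool →. List Bool) (f : ℝ → ℝ) (b : ℕ), 1 ≤ b →
  (∀ x ∈ Set.Icc (0 : ℝ) 1, edim U x (f x) ≤ 1) → ∀ R : ℕ, ∃ r ≥ R,
    ENNReal.ofReal (1 / ((r : ℝ) + 1) ^ 2) ≤ volume (low U f b r)

end Pool.Agent.Q205.TD
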