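import Pool.Agent.Q205.TD.Stm

/-! TDTAN. -/

set_option autoImplicit false

namespace Pool.Agent.Q205.TD

theorem itr_pow (a b : ℤ) (n : ℕ) :
    (((itr a b n).1 : ℂ) + ((itr a b n).2 : ℂ) * Complex.I) = ((a : ℂ) + (b : ℂ) * Complex.I) ^ n := by
  induction n with
  | zero => simp [itr]
  | succ n ih =>
    rw [pow_succ, ← ih]
    have e : itr a b (n + 1) = (a * (itr a b n).1 - b * (itr a b n).2,
      b * (itr a b n).1 + a * (itr a b n).2) := rfl
    rw [e]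
    push_cast
    linear_combination (-(b : ℂ) * ((itr a b n).2 : ℂ)) * Complex.I_sq

theorem arctan_bound (u : ℝ) : |Real.arctan u - u| ≤ |u| ^ 3 := by
  have h1 : ∀ t ∈ Set.Icc (-|u|) |u|, HasDerivWithinAt (fun t => Real.arctan t - t)
      (1 / (1 + t ^ 2) - 1) (Set.Icc (-|u|) |u|) t := fun t _ =>
    ((Real.hasDerivAt_arctan t).sub (hasDerivAt_id t)).hasDerivWithinAt
  have h2 : ∀ t ∈ Set.Icc (-|u|) |u|, ‖1 / (1 + t ^ 2) - 1‖ ≤ |u| ^ 2 := by
    intro t ht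
    have e : 1 / (1 + t ^ 2) - 1 = -(t ^ 2 / (1 + t ^ 2)) := by
      field_simp
      ring
    rw [e, norm_neg, Real.norm_eq_abs, abs_of_nonneg (by positivity)]
    have h3 : t ^ 2 ≤ |u| ^ 2 := by
      rw [sq_le_sq, abs_abs]
      exact abs_le.2 ht
    calc t ^ 2 / (1 + t ^ 2) ≤ t ^ 2 / 1 := by
          apply div_le_div_of_nonneg_left (by positivity) (by norm_num)
          nlinarith [sq_nonneg t]
      _ ≤ |u| ^ 2 := by rw [div_one]; exact h3
  have h4 := (convex_Icc (-|u|) |u|).norm_image_sub_le_of_norm_hasDerivWithin_le h1 h2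
    (x := 0) (y := u) ⟨by simp, abs_nonneg u⟩ ⟨neg_abs_le u, le_abs_self u⟩
  simp only [Real.arctan_zero, sub_zero, Real.norm_eq_abs] at h4
  calc |Real.arctan u - u| ≤ |u| ^ 2 * |u| := h4
    _ = |u| ^ 3 := by ring

theorem cos_lb {t : ℝ} (ht : t ∈ Set.Icc (-(3 / 5) : ℝ) (3 / 5)) : 41 / 50 ≤ Real.cos t := by
  have h1 := Real.one_sub_sq_div_two_le_cos (x := t)
  have h2 : t ^ 2 ≤ (3 / 5) ^ 2 := by
    rw [sq_le_sq, abs_of_pos (show (0 : ℝ) < 3 / 5 by norm_num)]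
    exact abs_le.2 ht
  linarith

theorem tan_lip {a b : ℝ} (ha : a ∈ Set.Icc (-(3 / 5) : ℝ) (3 / 5))
    (hb : b ∈ Set.Icc (-(3 / 5) : ℝ) (3 / 5)) : |Real.tan a - Real.tan b| ≤ 3 / 2 * |a - b| := by
  have h1 : ∀ t ∈ Set.Icc (-(3 / 5) : ℝ) (3 / 5), HasDerivWithinAt Real.tan
      (1 / Real.cos t ^ 2) (Set.Icc (-(3 / 5) : ℝ) (3 / 5)) t := fun t ht =>
    (Real.hasDerivAt_tan (by have := cos_lb ht; intro h; rw [h] at this; norm_num at this)
      ).hasDerivWithinAt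
  have h2 : ∀ t ∈ Set.Icc (-(3 / 5) : ℝ) (3 / 5), ‖1 / Real.cos t ^ 2‖ ≤ 3 / 2 := by
    intro t ht
    have h3 := cos_lb ht
    rw [Real.norm_eq_abs, abs_of_nonneg (by positivity), div_le_iff₀ (by positivity)]
    nlinarith
  exact (convex_Icc _ _).norm_image_sub_le_of_norm_hasDerivWithin_le h1 h2 hb ha

theorem tan : TANStm := by
  intro r hr v x hx hq
  obtain ⟨p, hp⟩ : ∃ p, p = v.1 := ⟨_, rfl⟩
  obtain ⟨d, hd⟩ : ∃ d : ℕ, d = v.2.2 + 1 := ⟨_, rfl⟩
  have hd0 : (0 : ℝ) < d := by rw [hd]; push_cast; positivity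
  obtain ⟨M, hM⟩ : ∃ M : ℝ, M = 2 ^ r := ⟨_, rfl⟩
  have hM32 : 32 ≤ M := by
    rw [hM]
    calc (32 : ℝ) = 2 ^ 5 := by norm_num
      _ ≤ 2 ^ r := pow_le_pow_right₀ (by norm_num) hr
  have hM0 : 0 < M := by linarith
  obtain ⟨q, hqd⟩ : ∃ q : ℝ, q = p / d := ⟨_, rfl⟩
  have hqx : |q - x| < 1 / M := by
    rw [hqd, hp, hd, hM]
    push_cast
    exact hq
  have h1M : 1 / M ≤ 1 / 32 := one_div_le_one_div_of_le (by norm_num) hM32
  have hq1 : |q| ≤ 33 / 32 := by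
    have h1 := abs_lt.1 hqx
    rw [abs_le]
    constructor
    · linarith [hx.1]
    · linarith [hx.2]
  obtain ⟨X, hX⟩ : ∃ X, X = (itr (2 * 2 ^ r * (v.2.2 + 1)) v.1 (2 ^ r)).1 := ⟨_, rfl⟩
  obtain ⟨Y, hY⟩ : ∃ Y, Y = (itr (2 * 2 ^ r * (v.2.2 + 1)) v.1 (2 ^ r)).2 := ⟨_, rfl⟩
  obtain ⟨u, hu⟩ : ∃ u : ℝ, u = q / (2 * M) := ⟨_, rfl⟩
  obtain ⟨θ, hθ⟩ : ∃ θ, θ = Real.arctan u := ⟨_, rfl⟩
  have hcθ : 0 < Real.cos θ := by rw [hθ]; exact Real.cos_arctan_pos u
  have htθ : Real.sin θ = u * Real.cos θ := by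
    have h1 := Real.tan_arctan u
    rw [← hθ, Real.tan_eq_sin_div_cos, div_eq_iff hcθ.ne'] at h1
    exact h1
  obtain ⟨K, hK⟩ : ∃ K : ℝ, K = (2 * M * d / Real.cos θ) ^ (2 ^ r) := ⟨_, rfl⟩
  have hK0 : 0 < K := by rw [hK]; positivity
  have hXY : (X : ℂ) + (Y : ℂ) * Complex.I = (K : ℂ) * Complex.exp (((M * θ : ℝ) : ℂ) * Complex.I) := by
    rw [hX, hY, itr_pow, hK]
    have e1 : (((2 * 2 ^ r * (v.2.2 + 1) : ℤ)) : ℂ) + (v.1 : ℂ) * Complex.I =
        ((2 * M * d / Real.cos θ : ℝ) : ℂ) * Complex.exp ((θ : ℂ) * Complex.I) := by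
      rw [Complex.exp_mul_I, ← Complex.ofReal_cos, ← Complex.ofReal_sin, htθ]
      have hc : ((Real.cos θ : ℝ) : ℂ) ≠ 0 := by exact_mod_cast hcθ.ne'
      have e2 : ((2 * M * d / Real.cos θ : ℝ) : ℂ) * (((Real.cos θ : ℝ) : ℂ) +
          ((u * Real.cos θ : ℝ) : ℂ) * Complex.I) =
          ((2 * M * d : ℝ) : ℂ) + ((2 * M * d * u : ℝ) : ℂ) * Complex.I := by
        push_cast
        push_cast at hc
        field_simp
      rw [e2]
      have e3 : 2 * M * d * u = p := by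
        rw [hu, hqd]
        field_simp
      rw [e3, hM, hd, hp]
      push_cast
      ring
    rw [e1, mul_pow, ← Complex.exp_nat_mul]
    congr 1
    · push_cast
      rfl
    · congr 1
      rw [hM]
      push_cast
      ring
  have hXr : (X : ℝ) = K * Real.cos (M * θ) := by
    have h := congrArg Complex.re hXY
    rw [Complex.re_ofReal_mul, Complex.exp_ofReal_mul_I_re] at h
    simpa using h
  have hYr : (Y : ℝ) = K * Real.sin (M * θ) := by
    have h := congrArg Complex.im hXY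
    rw [Complex.im_ofReal_mul, Complex.exp_ofReal_mul_I_im] at h
    simpa using h
  have hu1 : |u| ≤ 33 / (64 * M) := by
    rw [hu, abs_div, abs_of_pos (show 0 < 2 * M by linarith), div_le_div_iff₀ (by linarith)
      (by linarith)]
    nlinarith
  have hMθ : |M * θ - q / 2| ≤ 1 / (4 * M) := by
    have h1 := arctan_bound u
    have e : M * θ - q / 2 = M * (Real.arctan u - u) := by
      rw [← hθ, hu]
      field_simp
    rw [e, abs_mul, abs_of_pos hM0]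
    calc M * |Real.arctan u - u| ≤ M * |u| ^ 3 := by gcongr
      _ ≤ M * (33 / (64 * M)) ^ 3 := by gcongr
      _ ≤ 1 / (4 * M) := by
        rw [div_pow, mul_div_assoc', div_le_div_iff₀ (by positivity) (by positivity)]
        have : M ^ 2 ≤ M ^ 3 / 32 := by
          have : M ^ 3 = M ^ 2 * M := by ring
          nlinarith [sq_nonneg M]
        nlinarith [pow_pos hM0 3]
  have h4M : 1 / (4 * M) ≤ 1 / 128 := one_div_le_one_div_of_le (by norm_num) (by linarith)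
  have hMθ2 : M * θ ∈ Set.Icc (-(3 / 5) : ℝ) (3 / 5) := by
    have h1 := abs_le.1 hMθ
    have h2 := abs_le.1 hq1
    constructor
    · linarith [h1.1, h2.1]
    · linarith [h1.2, h2.2]
  have hx2 : x / 2 ∈ Set.Icc (-(3 / 5) : ℝ) (3 / 5) := ⟨by linarith [hx.1], by linarith [hx.2]⟩
  have hcos : 0 < Real.cos (M * θ) := lt_of_lt_of_le (by norm_num) (cos_lb hMθ2)
  have hX0 : (0 : ℝ) < X := by rw [hXr]; positivity
  have hYX : (Y : ℝ) / X = Real.tan (M * θ) := by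
    rw [hXr, hYr, Real.tan_eq_sin_div_cos, mul_div_mul_left _ _ hK0.ne']
  have hdist : |(Y : ℝ) / X - Real.tan (x / 2)| ≤ 9 / (8 * M) := by
    rw [hYX]
    have h1 := tan_lip hMθ2 hx2
    have h2 : |M * θ - x / 2| ≤ 1 / (4 * M) + 1 / (2 * M) := by
      have e : M * θ - x / 2 = (M * θ - q / 2) + (q - x) / 2 := by ring
      rw [e]
      refine (abs_add_le _ _).trans (add_le_add hMθ ?_)
      rw [abs_div, abs_of_pos (show (0 : ℝ) < 2 by norm_num)]
      calc |q - x| / 2 ≤ (1 / M) / 2 := by gcongr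
        _ = 1 / (2 * M) := by field_simp
    calc |Real.tan (M * θ) - Real.tan (x / 2)| ≤ 3 / 2 * |M * θ - x / 2| := h1
      _ ≤ 3 / 2 * (1 / (4 * M) + 1 / (2 * M)) := by gcongr
      _ = 9 / (8 * M) := by field_simp; norm_num
  have htan0 : 0 ≤ Real.tan (x / 2) := Real.tan_nonneg_of_nonneg_of_le_pi_div_two
    (by linarith [hx.1]) (by have := Real.pi_gt_three; linarith [hx.2])
  have htan1 : Real.tan (x / 2) ≤ 3 / 4 := by
    have h1 := tan_lip hx2 (show (0 : ℝ) ∈ Set.Icc (-(3 / 5) : ℝ) (3 / 5) by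
      constructor <;> norm_num)
    rw [Real.tan_zero, sub_zero, sub_zero, abs_of_nonneg htan0,
      abs_of_nonneg (show 0 ≤ x / 2 by linarith [hx.1])] at h1
    linarith [hx.2]
  -- the natural numbers
  obtain ⟨Xn, hXn⟩ : ∃ Xn : ℕ, Xn = X.toNat := ⟨_, rfl⟩
  obtain ⟨Yn, hYn⟩ : ∃ Yn : ℕ, Yn = Y.toNat := ⟨_, rfl⟩
  have hXZ : (Xn : ℝ) = X := by
    have h0 : 0 ≤ X := by
      have : (0 : ℝ) ≤ X := hX0.le
      exact_mod_cast this
    have : ((Xn : ℤ) : ℝ) = X := by rw [hXn, Int.toNat_of_nonneg h0]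
    exact_mod_cast this
  have hYZ : (Yn : ℝ) = max (Y : ℝ) 0 := by
    have : ((Yn : ℤ) : ℝ) = ((max Y 0 : ℤ) : ℝ) := by rw [hYn, Int.toNat_eq_max]
    rw [Int.cast_max, Int.cast_zero] at this
    exact_mod_cast this
  have hYnX : |(Yn : ℝ) / Xn - Real.tan (x / 2)| ≤ 9 / (8 * M) := by
    rw [hXZ, hYZ]
    rcases le_total (Y : ℝ) 0 with h | h
    · rw [max_eq_right h, zero_div, zero_sub, abs_neg, abs_of_nonneg htan0]
      have h1 : (Y : ℝ) / X ≤ 0 := div_nonpos_of_nonpos_of_nonneg h hX0.le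
      have h2 := (abs_le.1 hdist).1
      linarith
    · rw [max_eq_left h]
      exact hdist
  have hXn0 : 0 < Xn := by
    have : (0 : ℝ) < Xn := by rw [hXZ]; exact hX0
    exact_mod_cast this
  have hcol : col r v = (2 ^ r * Yn) / Xn := by
    unfold col
    rw [← hX, ← hY, ← hXn, ← hYn]
  have hc1 : (col r v : ℝ) / M ≤ Yn / Xn := by
    have h1 := Nat.div_mul_le_self (2 ^ r * Yn) Xn
    rw [← hcol] at h1
    have h2 : (col r v : ℝ) * Xn ≤ 2 ^ r * Yn := by exact_mod_cast h1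
    rw [← hM] at h2
    rw [div_le_div_iff₀ hM0 (by exact_mod_cast hXn0)]
    linarith [mul_comm M (Yn : ℝ)]
  have hc2 : (Yn : ℝ) / Xn ≤ (col r v : ℝ) / M + 1 / M := by
    have h1 := Nat.lt_mul_div_succ (2 ^ r * Yn) hXn0
    rw [← hcol] at h1
    have h2 : (2 : ℝ) ^ r * Yn < Xn * (col r v + 1) := by exact_mod_cast h1
    rw [← hM] at h2
    rw [← add_div, div_le_div_iff₀ (by exact_mod_cast hXn0) hM0]
    linarith [mul_comm M (Yn : ℝ), mul_comm (Xn : ℝ) ((col r v : ℝ) + 1)]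
  have h9 : 9 / (8 * M) = 9 / 8 * (1 / M) := by field_simp
  have h4 : 4 / M = 4 * (1 / M) := by ring
  have h0M : 0 < 1 / M := by positivity
  have hab := abs_le.1 hYnX
  rw [h9] at hab
  constructor
  · have h1 : (col r v : ℝ) / M ≤ 1 := by linarith [hab.2]
    rw [div_le_one hM0, hM] at h1
    exact_mod_cast h1
  · rw [← hM, h4, abs_le]
    constructor
    · linarith [hab.1]
    · linarith [hab.2]

end Pool.Agent.Q205.TD
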